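import Mathlib

/-!
Mertens-type upper bound and the lower bound for the Selberg sum.
-/

open Finset Real

namespace Pool.Agent.Lib.MP_778b46_nt

/-- `1 / (l - 1)`. -/
noncomputable def uu (l : ℕ) : ℝ := 1 / ((l : ℝ) - 1)

/-- The product of `l / (l - 1)` over `P`. -/
noncomputable def mert (P : Finset ℕ) : ℝ := ∏ l ∈ P, (1 + uu l)

/-- Subsets of `P` with product at most `R`. -/
def dd (P : Finset ℕ) (R : ℕ) : Finset (Finset ℕ) := P.powerset.filter fun S => ∏ l ∈ S, l ≤ R

/-- The Selberg sum. -/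
noncomputable def gg (P : Finset ℕ) (R : ℕ) : ℝ := ∑ S ∈ dd P R, ∏ l ∈ S, uu l

lemma uu_pos {l : ℕ} (hl : l.Prime) : 0 < uu l := by
  have : (2 : ℝ) ≤ l := by exact_mod_cast hl.two_le
  unfold uu
  apply one_div_pos.mpr; linarith

lemma uu_le_one {l : ℕ} (hl : l.Prime) : uu l ≤ 1 := by
  have : (2 : ℝ) ≤ l := by exact_mod_cast hl.two_le
  unfold uu
  rw [div_le_one (by linarith)]; linarith

lemma mul_uu {l : ℕ} (hl : l.Prime) : l * uu l = 1 + uu l := by
  have : (2 : ℝ) ≤ l := by exact_mod_cast hl.two_le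
  have : (l : ℝ) - 1 ≠ 0 := by linarith
  unfold uu
  field_simp; ring

lemma one_le_mert {P : Finset ℕ} (hP : ∀ l ∈ P, l.Prime) : 1 ≤ mert P := by
  unfold mert
  exact Finset.one_le_prod fun l hl => by linarith [uu_pos (hP l hl)]

lemma sum_log_div_le (n : ℕ) (hn : 1 ≤ n) :
    ∑ p ∈ Nat.primesLE n, log p / p ≤ log n + log 4 := by
  have hn0 : (0 : ℝ) < n := by exact_mod_cast hn
  have h1 : ∑ p ∈ Nat.primesLE n, log p * ((n / p : ℕ) : ℝ) ≤ n * log n := by
    calc ∑ p ∈ Nat.primesLE n, log p * ((n / p : ℕ) : ℝ)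
        = ∑ p ∈ Nat.primesLE n, ∑ m ∈ Ioc 0 n, if p ∣ m then log p else 0 := by
          refine sum_congr rfl fun p _ => ?_
          rw [← sum_filter, sum_const, Nat.Ioc_filter_dvd_card_eq_div, nsmul_eq_mul, mul_comm]
      _ = ∑ m ∈ Ioc 0 n, ∑ p ∈ Nat.primesLE n, if p ∣ m then log p else 0 := sum_comm
      _ ≤ ∑ m ∈ Ioc 0 n, log n := by
          refine sum_le_sum fun m hm => ?_
          obtain ⟨hm0, hmn⟩ := mem_Ioc.mp hm
          rw [← sum_filter]
          have hsub : (Nat.primesLE n).filter (· ∣ m) ⊆ m.primeFactors := by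
            intro p hp
            obtain ⟨hp1, hp2⟩ := mem_filter.mp hp
            exact Nat.mem_primeFactors.mpr ⟨Nat.prime_of_mem_primesLE hp1, hp2, hm0.ne'⟩
          calc _ ≤ ∑ p ∈ m.primeFactors, log p :=
                sum_le_sum_of_subset_of_nonneg hsub fun p _ _ => log_natCast_nonneg p
            _ = log (∏ p ∈ m.primeFactors, (p : ℝ)) := by
                rw [log_prod]
                intro p hp
                exact_mod_cast (Nat.prime_of_mem_primeFactors hp).ne_zero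
            _ ≤ log n := by
                apply log_le_log
                · exact prod_pos fun p hp => by
                    exact_mod_cast (Nat.prime_of_mem_primeFactors hp).pos
                · rw [← Nat.cast_prod]
                  exact_mod_cast (Nat.le_of_dvd hm0 (Nat.prod_primeFactors_dvd m)).trans hmn
      _ = n * log n := by simp
  have h2 : ∑ p ∈ Nat.primesLE n, log p ≤ log 4 * n := by
    rw [← Chebyshev.theta_eq_sum_primesLE_log]
    exact Chebyshev.theta_le_log4_mul_x hn0.le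
  have h3 : n * ∑ p ∈ Nat.primesLE n, log p / p ≤
      ∑ p ∈ Nat.primesLE n, log p * ((n / p : ℕ) : ℝ) + ∑ p ∈ Nat.primesLE n, log p := by
    rw [mul_sum, ← sum_add_distrib]
    refine sum_le_sum fun p hp => ?_
    have hp0 : (0 : ℝ) < p := by exact_mod_cast (Nat.prime_of_mem_primesLE hp).pos
    have h4 : (n : ℝ) / p ≤ ((n / p : ℕ) : ℝ) + 1 := by
      rw [div_le_iff₀ hp0]
      have := Nat.lt_div_mul_add (a := n) (Nat.prime_of_mem_primesLE hp).pos
      have h5 : (n : ℝ) < ((n / p : ℕ) : ℝ) * p + p := by exact_mod_cast this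
      linarith
    have h6 := log_natCast_nonneg p
    calc (n : ℝ) * (log p / p) = log p * (n / p) := by ring
      _ ≤ log p * (((n / p : ℕ) : ℝ) + 1) := by gcongr
      _ = _ := by ring
  have : n * ∑ p ∈ Nat.primesLE n, log p / p ≤ n * (log n + log 4) := by linarith
  exact le_of_mul_le_mul_left this hn0

lemma sum_inv_le : ∃ C : ℝ, ∀ n : ℕ, 2 ≤ n →
    ∑ p ∈ Nat.primesLE n, (1 : ℝ) / p ≤ log (log n) + C := by
  set F : ℕ → ℝ := fun n => ∑ p ∈ Nat.primesLE n, (1 : ℝ) / p +
    (log n + log 4 - ∑ p ∈ Nat.primesLE n, log p / p) / log n - log (log n) with hF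
  have hmono : ∀ n, 2 ≤ n → F n ≤ F 2 := by
    intro n hn
    induction n, hn using Nat.le_induction with
    | base => exact le_rfl
    | succ n hn ih =>
      refine le_trans ?_ ih
      have hn0 : (1 : ℝ) < n := by exact_mod_cast hn
      have hl0 : 0 < log n := log_pos hn0
      have hl1 : log n ≤ log ((n + 1 : ℕ) : ℝ) := log_le_log (by linarith) (by push_cast; linarith)
      have hD := sum_log_div_le n (by omega)
      set D := log n + log 4 - ∑ p ∈ Nat.primesLE n, log p / p with hDdef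
      set a := log ((n + 1 : ℕ) : ℝ) with ha
      set b := log (n : ℝ) with hb
      have ha0 : 0 < a := by linarith
      have hD0 : 0 ≤ D := by linarith
      have h1 : D / a ≤ D / b := by gcongr
      have h2 : (a - b) / a ≤ log a - log b := by
        have := log_le_sub_one_of_pos (div_pos hl0 ha0)
        rw [log_div hl0.ne' ha0.ne'] at this
        have e : (a - b) / a = 1 - b / a := by field_simp
        linarith
      simp only [hF]
      rw [Nat.primesLE_succ]
      split_ifs with hp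
      · rw [sum_insert (Nat.notMem_primesLE n), sum_insert (Nat.notMem_primesLE n), ← ha, ← hb,
          ← hDdef]
        have e : (a + log 4 - (a / ((n + 1 : ℕ) : ℝ) + ∑ p ∈ Nat.primesLE n, log p / p)) / a
            = D / a + (a - b) / a - 1 / ((n + 1 : ℕ) : ℝ) := by
          rw [hDdef]; field_simp; ring
        rw [e]; linarith
      · rw [← ha, ← hb, ← hDdef]
        have e : (a + log 4 - ∑ p ∈ Nat.primesLE n, log p / p) / a = D / a + (a - b) / a := by
          rw [hDdef]; field_simp; ring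
        rw [e]; linarith
  refine ⟨F 2, fun n hn => ?_⟩
  have h1 := hmono n hn
  have hn0 : (1 : ℝ) < n := by exact_mod_cast hn
  have h2 : 0 ≤ (log n + log 4 - ∑ p ∈ Nat.primesLE n, log p / p) / log n :=
    div_nonneg (by linarith [sum_log_div_le n (by omega)]) (log_pos hn0).le
  have h3 : F n = ∑ p ∈ Nat.primesLE n, (1 : ℝ) / p +
    (log n + log 4 - ∑ p ∈ Nat.primesLE n, log p / p) / log n - log (log n) := rfl
  linarith

lemma sum_uu_sq_le {P : Finset ℕ} {w : ℕ} (hw : 1 ≤ w) (hP : ∀ l ∈ P, w < l) :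
    ∑ l ∈ P, uu l ^ 2 ≤ 2 / w := by
  have h := sum_Ioo_inv_sq_le (α := ℝ) (w - 1) (P.sup id)
  have e : (((w - 1 : ℕ) : ℝ) + 1) = w := by rw [Nat.cast_sub hw]; simp
  rw [e] at h
  refine le_trans ?_ h
  have hinj : Set.InjOn (fun l : ℕ => l - 1) P := by
    intro a ha b hb hab
    have := hP a ha; have := hP b hb
    simp only at hab; omega
  calc ∑ l ∈ P, uu l ^ 2 = ∑ l ∈ P, (((l - 1 : ℕ) : ℝ) ^ 2)⁻¹ := by
        refine sum_congr rfl fun l hl => ?_
        rw [Nat.cast_sub (by have := hP l hl; omega), uu]; simp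
    _ = ∑ i ∈ P.image (fun l : ℕ => l - 1), (((i : ℕ) : ℝ) ^ 2)⁻¹ := by rw [sum_image hinj]
    _ ≤ _ := by
        refine sum_le_sum_of_subset_of_nonneg ?_ fun _ _ _ => by positivity
        intro i hi
        obtain ⟨l, hl, rfl⟩ := mem_image.mp hi
        have h1 := hP l hl
        have h2 : l ≤ P.sup id := le_sup (f := id) hl
        rw [mem_Ioo]; omega

lemma mert_le : ∃ C : ℝ, 1 ≤ C ∧ ∀ n : ℕ, 2 ≤ n → ∀ P ⊆ Nat.primesLE n, mert P ≤ C * log n := by
  obtain ⟨C, hC⟩ := sum_inv_le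
  refine ⟨max 1 (exp (C + 2)), le_max_left _ _, fun n hn P hP => ?_⟩
  have hn0 : (1 : ℝ) < n := by exact_mod_cast hn
  have hl := log_pos hn0
  have hpr : ∀ l ∈ P, l.Prime := fun l hl => Nat.prime_of_mem_primesLE (hP hl)
  have h1 : mert P ≤ exp (∑ l ∈ P, uu l) := by
    rw [exp_sum, mert]
    refine prod_le_prod (fun l hl => by linarith [uu_pos (hpr l hl)]) fun l _ => ?_
    linarith [add_one_le_exp (uu l)]
  have h2 : ∑ l ∈ P, uu l ≤ ∑ l ∈ P, (1 : ℝ) / l + ∑ l ∈ P, uu l ^ 2 := by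
    rw [← sum_add_distrib]
    refine sum_le_sum fun l hl => ?_
    have h3 := mul_uu (hpr l hl)
    have h4 := uu_pos (hpr l hl)
    have h5 : (0 : ℝ) < l := by exact_mod_cast (hpr l hl).pos
    have h6 : uu l = 1 / l + uu l / l := by field_simp; linarith
    have h7 : uu l / l ≤ uu l ^ 2 := by
      rw [div_le_iff₀ h5]; nlinarith
    linarith
  have h3 : ∑ l ∈ P, uu l ^ 2 ≤ 2 := by
    have := sum_uu_sq_le (P := P) (w := 1) le_rfl fun l hl => (hpr l hl).one_lt
    simpa using this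
  have h4 : ∑ l ∈ P, (1 : ℝ) / l ≤ log (log n) + C :=
    (sum_le_sum_of_subset_of_nonneg hP fun _ _ _ => by positivity).trans (hC n hn)
  calc mert P ≤ exp (log (log n) + (C + 2)) := h1.trans (exp_le_exp.mpr (by linarith))
    _ = exp (C + 2) * log n := by rw [exp_add, exp_log hl, mul_comm]
    _ ≤ _ := by gcongr; exact le_max_right _ _

lemma sum_inv_fiber_le (V : Finset ℕ) (hV : ∀ l ∈ V, l.Prime) (A : Finset ℕ)
    (hA : ∀ n ∈ A, n ≠ 0 ∧ n.primeFactors = V) : ∑ n ∈ A, (1 : ℝ) / n ≤ ∏ l ∈ V, uu l := by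
  set Q := ∏ l ∈ V, l with hQ
  have hQ0 : 0 < Q := prod_pos fun l hl => (hV l hl).pos
  have hdvd : ∀ n ∈ A, Q ∣ n := fun n hn => by
    rw [hQ, ← (hA n hn).2]; exact Nat.prod_primeFactors_dvd n
  let f : ℕ →* ℝ :=
    { toFun := fun n => (n : ℝ)⁻¹
      map_one' := by simp
      map_mul' := fun a b => by push_cast; rw [mul_inv] }
  have hf : ∀ {p : ℕ}, p.Prime → ‖f p‖ < 1 := by
    intro p hp
    have : (1 : ℝ) < p := by exact_mod_cast hp.one_lt
    change ‖(p : ℝ)⁻¹‖ < 1
    rw [norm_inv, Real.norm_natCast]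
    exact inv_lt_one_of_one_lt₀ this
  have hs := (EulerProduct.summable_and_hasSum_factoredNumbers_prod_filter_prime_geometric hf V).2
  rw [filter_true_of_mem hV] at hs
  have hmem : ∀ n ∈ A, n / Q ∈ Nat.factoredNumbers V := by
    intro n hn
    rw [Nat.mem_factoredNumbers_iff_primeFactors_subset]
    refine ⟨(Nat.div_pos (Nat.le_of_dvd (Nat.pos_of_ne_zero (hA n hn).1) (hdvd n hn)) hQ0).ne', ?_⟩
    rw [← (hA n hn).2]
    exact Nat.primeFactors_mono (Nat.div_dvd_of_dvd (hdvd n hn)) (hA n hn).1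
  let g : A → Nat.factoredNumbers V := fun n => ⟨n.1 / Q, hmem n.1 n.2⟩
  have hg : Function.Injective g := by
    intro a b hab
    have h1 : a.1 / Q = b.1 / Q := congrArg Subtype.val hab
    apply Subtype.ext
    rw [← Nat.div_mul_cancel (hdvd a.1 a.2), ← Nat.div_mul_cancel (hdvd b.1 b.2), h1]
  have h1 := sum_le_hasSum (univ.image g) (fun m _ => by
    change (0 : ℝ) ≤ ((m : ℕ) : ℝ)⁻¹
    positivity) hs
  rw [sum_image (fun a _ b _ h => hg h)] at h1
  have hQr : (0 : ℝ) < Q := by exact_mod_cast hQ0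
  have h2 : ∑ n ∈ A, (1 : ℝ) / n = (∑ n : A, f (g n)) / Q := by
    rw [← sum_coe_sort A, sum_div]
    refine sum_congr rfl fun n _ => ?_
    change (1 : ℝ) / n.1 = ((n.1 / Q : ℕ) : ℝ)⁻¹ / Q
    rw [Nat.cast_div (hdvd n.1 n.2) hQr.ne']
    have : (n.1 : ℝ) ≠ 0 := by exact_mod_cast (hA n.1 n.2).1
    field_simp
  rw [h2, div_le_iff₀ hQr]
  refine h1.trans (le_of_eq ?_)
  rw [hQ, Nat.cast_prod, ← prod_mul_distrib]
  refine prod_congr rfl fun l hl => ?_
  change (1 - (l : ℝ)⁻¹)⁻¹ = uu l * l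
  have : (2 : ℝ) ≤ l := by exact_mod_cast (hV l hl).two_le
  have h3 : (l : ℝ) - 1 ≠ 0 := by linarith
  have h4 : (l : ℝ) ≠ 0 := by linarith
  unfold uu
  field_simp

lemma log_le_gg_mul (P0 P : Finset ℕ) (R : ℕ) (hP0 : ∀ l ∈ P0, l.Prime) (hP : ∀ l ∈ P, l.Prime)
    (hcov : ∀ l, l.Prime → l ≤ R → l ∈ P0 ∨ l ∈ P) :
    log (R + 1) ≤ gg P R * mert P0 := by
  have h1 := log_add_one_le_harmonic R
  rw [harmonic_eq_sum_Icc] at h1
  push_cast at h1
  refine h1.trans ?_
  have hmaps : ∀ n ∈ Icc 1 R, (n.primeFactors ∩ P, n.primeFactors \ P) ∈ dd P R ×ˢ P0.powerset := by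
    intro n hn
    obtain ⟨hn1, hn2⟩ := mem_Icc.mp hn
    rw [mem_product, dd, mem_filter, mem_powerset, mem_powerset]
    refine ⟨⟨inter_subset_right, ?_⟩, ?_⟩
    · refine le_trans (Nat.le_of_dvd hn1 ?_) hn2
      exact (prod_dvd_prod_of_subset _ _ _ inter_subset_left).trans (Nat.prod_primeFactors_dvd n)
    · intro l hl
      obtain ⟨hl1, hl2⟩ := mem_sdiff.mp hl
      have := hcov l (Nat.prime_of_mem_primeFactors hl1) ((Nat.le_of_mem_primeFactors hl1).trans hn2)
      tauto
  rw [← sum_fiberwise_of_maps_to hmaps, gg, mert, prod_one_add, sum_mul_sum, ← sum_product']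
  refine sum_le_sum fun x hx => ?_
  obtain ⟨S, V⟩ := x
  obtain ⟨hS, hV⟩ := mem_product.mp hx
  have hSP : S ⊆ P := mem_powerset.mp (mem_filter.mp hS).1
  have hVP : V ⊆ P0 := mem_powerset.mp hV
  by_cases hne : ((Icc 1 R).filter fun n : ℕ =>
      (n.primeFactors ∩ P, n.primeFactors \ P) = (S, V)).Nonempty
  · obtain ⟨n0, hn0⟩ := hne
    have hd : Disjoint S V := by
      have := (mem_filter.mp hn0).2
      rw [Prod.mk.injEq] at this
      rw [← this.1, ← this.2]
      exact disjoint_of_subset_left inter_subset_right disjoint_sdiff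
    rw [← prod_union hd]
    have := sum_inv_fiber_le (S ∪ V) (fun l hl => by
      rcases mem_union.mp hl with h | h
      exacts [hP l (hSP h), hP0 l (hVP h)]) ((Icc 1 R).filter fun n : ℕ =>
      (n.primeFactors ∩ P, n.primeFactors \ P) = (S, V)) (fun n hn => by
        obtain ⟨h1, h2⟩ := mem_filter.mp hn
        rw [Prod.mk.injEq] at h2
        refine ⟨by have := (mem_Icc.mp h1).1; omega, ?_⟩
        rw [← h2.1, ← h2.2, union_comm, sdiff_union_inter])
    simpa only [one_div] using this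
  · rw [not_nonempty_iff_eq_empty.mp hne, sum_empty]
    exact mul_nonneg (prod_nonneg fun l hl => (uu_pos (hP l (hSP hl))).le)
      (prod_nonneg fun l hl => (uu_pos (hP0 l (hVP hl))).le)

end Pool.Agent.Lib.MP_778b46_nt
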