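import Pool.Agent.Lib.MP_778b46_nt.Sieve

/-!
Two applications of the variance bound: primes in almost all short intervals, and sumsets of a set
of primes with an arbitrary set.
-/

open Finset Real

namespace Pool.Agent.Lib.MP_778b46_nt

variable {P : Finset ℕ} {R : ℕ}

lemma rho_eq (l : ℕ) (h : ℤ) : rho l h = - uu l * ps l h := by
  unfold rho ps
  split_ifs <;> ring

lemma sum_abs_ps {l : ℕ} (hl : l.Prime) (t : ℤ) : ∑ z ∈ range l, |ps l (z + t)| = 2 := by
  have h : ∀ n : ℤ, |ps l n| = uu l + if (l : ℤ) ∣ n then 1 - uu l else 0 := by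
    intro n
    unfold ps
    split_ifs
    · simp
    · rw [abs_of_pos (uu_pos hl), add_zero]
  simp only [h]
  rw [sum_add_distrib, sum_ite_dvd hl.pos, sum_const, card_range, nsmul_eq_mul, mul_uu hl]
  ring

lemma prod_one_add_mul_le (hP : ∀ l ∈ P, l.Prime) (k : ℕ) :
    ∏ l ∈ P, (1 + k * uu l) ≤ mert P ^ k := by
  rw [mert, ← prod_pow]
  refine prod_le_prod (fun l hl => ?_) fun l hl => ?_
  · have := uu_pos (hP l hl); positivity
  · exact one_add_mul_le_pow (by linarith [uu_pos (hP l hl)]) k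

lemma phi_interval (hP : ∀ l ∈ P, l.Prime) (H : ℕ) :
    ∑ U ∈ P.powerset.erase ∅, 9 ^ U.card *
      |∑ t ∈ Ioc (0 : ℤ) (0 + H), ∑ t' ∈ Ioc (0 : ℤ) (0 + H), ∏ l ∈ U, rho l (t - t')|
      ≤ H * mert P ^ 18 := by
  have h1 : ∀ U ∈ P.powerset.erase ∅, 9 ^ U.card *
      |∑ t ∈ Ioc (0 : ℤ) (0 + H), ∑ t' ∈ Ioc (0 : ℤ) (0 + H), ∏ l ∈ U, rho l (t - t')|
      ≤ H * ∏ l ∈ U, (18 * uu l) := by
    intro U hU
    obtain ⟨hne, hUP⟩ := mem_erase.mp hU
    have hUp : ∀ l ∈ U, l.Prime := fun l hl => hP l (mem_powerset.mp hUP hl)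
    have h2 : ∀ t' : ℤ, |∑ t ∈ Ioc (0 : ℤ) (0 + H), ∏ l ∈ U, rho l (t - t')|
        ≤ ∏ l ∈ U, (2 * uu l) := by
      intro t'
      have h3 := sum_prod_periodic (fun l s => rho l (s - t'))
        (fun l s s' hs => by simp only [rho_eq, sub_eq_add_neg, ps_congr hs]) 0 H U hUp
      obtain ⟨l0, hl0⟩ := nonempty_iff_ne_empty.mpr hne
      rw [prod_eq_zero hl0 (by
        simp only [rho_eq, sub_eq_add_neg]
        rw [← mul_sum, sum_ps (hUp l0 hl0)]; simp), mul_zero, sub_zero] at h3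
      refine h3.trans (le_of_eq (prod_congr rfl fun l hl => ?_))
      simp only [rho_eq, sub_eq_add_neg, abs_mul, abs_neg, abs_of_pos (uu_pos (hUp l hl))]
      rw [← mul_sum, sum_abs_ps (hUp l hl), mul_comm]
    rw [sum_comm]
    calc _ ≤ 9 ^ U.card * ∑ t' ∈ Ioc (0 : ℤ) (0 + H), ∏ l ∈ U, (2 * uu l) := by
          gcongr
          exact (abs_sum_le_sum_abs _ _).trans (sum_le_sum fun t' _ => h2 t')
      _ = H * ∏ l ∈ U, (18 * uu l) := by
          have e : ∏ l ∈ U, (18 * uu l) = 9 ^ U.card * ∏ l ∈ U, (2 * uu l) := by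
            rw [← prod_const, ← prod_mul_distrib]
            exact prod_congr rfl fun l _ => by ring
          rw [e]; simp; ring
  refine (sum_le_sum h1).trans ?_
  rw [← mul_sum]
  refine mul_le_mul_of_nonneg_left ?_ (Nat.cast_nonneg H)
  refine le_trans ?_ (prod_one_add_mul_le hP 18)
  rw [prod_one_add]
  push_cast
  exact sum_le_sum_of_subset_of_nonneg (erase_subset _ _) fun U hU _ =>
    prod_nonneg fun l hl => by have := uu_pos (hP l (mem_powerset.mp hU hl)); positivity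

/-- Few short intervals contain many primes. -/
lemma exceptional (X R H : ℕ) (hR : 1 ≤ R) (hH : 1 ≤ H) :
    (((Ioc 0 X).filter fun x => 2 * H / log (R + 1) <
      (((Ioc x (x + H)).filter Nat.Prime).card : ℝ)).card : ℝ) ≤
      R + (X * mert (Nat.primesLE R) ^ 20 / H + (R : ℝ) ^ 8) * log (R + 1) ^ 2 := by
  set P := Nat.primesLE R with hPdef
  have hP : ∀ l ∈ P, l.Prime := fun l hl => Nat.prime_of_mem_primesLE hl
  have hR' : (1 : ℝ) ≤ R := by exact_mod_cast hR
  have hH' : (0 : ℝ) < H := by exact_mod_cast hH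
  have hL : 0 < log (R + 1) := log_pos (by linarith)
  have hg : log (R + 1) ≤ gg P R := by
    have := log_le_gg_mul ∅ P R (by simp) hP fun l hl hlR => Or.inr (Nat.mem_primesLE.mpr ⟨hlR, hl⟩)
    simpa [mert] using this
  have hv := variance hP hR (Ioc (0 : ℤ) (0 + H)) 0 X
  have hcard : (Ioc (0 : ℤ) (0 + H)).card = H := by simp
  rw [hcard] at hv
  have hm := one_le_mert hP
  have hv2 : ∑ s ∈ Ioc (0 : ℤ) (0 + X), (∑ t ∈ Ioc (0 : ℤ) (0 + H), nu P R (s + t) - H / gg P R) ^ 2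
      ≤ X * mert P ^ 20 * H + (H : ℝ) ^ 2 * (R : ℝ) ^ 8 := by
    refine hv.trans (add_le_add ?_ le_rfl)
    calc _ ≤ X * mert P ^ 2 * (H * mert P ^ 18) := by gcongr; exact phi_interval hP H
      _ = _ := by ring
  set E := (Ioc 0 X).filter fun x => 2 * H / log (R + 1) <
      (((Ioc x (x + H)).filter Nat.Prime).card : ℝ) with hE
  set E' := E.filter (R ≤ ·) with hE'
  have h1 : E.card ≤ R + E'.card := by
    have : E ⊆ range R ∪ E' := by
      intro x hx
      rw [mem_union, mem_range, hE', mem_filter]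
      by_cases h : x < R
      · exact Or.inl h
      · exact Or.inr ⟨hx, by omega⟩
    exact (card_le_card this).trans ((card_union_le _ _).trans (by simp))
  have h2 : ∀ x ∈ E', (H / log (R + 1)) ^ 2 ≤
      (∑ t ∈ Ioc (0 : ℤ) (0 + H), nu P R ((x : ℤ) + t) - H / gg P R) ^ 2 := by
    intro x hx
    obtain ⟨hxE, hxR⟩ := mem_filter.mp hx
    have h3 := (mem_filter.mp hxE).2
    have h4 : (((Ioc x (x + H)).filter Nat.Prime).card : ℝ) ≤
        ∑ t ∈ Ioc (0 : ℤ) (0 + H), nu P R ((x : ℤ) + t) := by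
      have hinj : Set.InjOn (fun p : ℕ => (p : ℤ) - x) ((Ioc x (x + H)).filter Nat.Prime) := by
        intro a _ b _ h
        simp only at h; omega
      calc _ = ∑ p ∈ (Ioc x (x + H)).filter Nat.Prime, nu P R ((x : ℤ) + ((p : ℤ) - x)) := by
            rw [card_eq_sum_ones, Nat.cast_sum]
            refine sum_congr rfl fun p hp => ?_
            obtain ⟨hp1, hp2⟩ := mem_filter.mp hp
            rw [nu_eq_one hP hR, Nat.cast_one]
            intro l hl hd
            rw [add_sub_cancel, Int.natCast_dvd_natCast,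
              Nat.prime_dvd_prime_iff_eq (hP l hl) hp2] at hd
            have := Nat.le_of_mem_primesLE hl
            have := (mem_Ioc.mp hp1).1
            omega
        _ = ∑ t ∈ ((Ioc x (x + H)).filter Nat.Prime).image (fun p : ℕ => (p : ℤ) - x),
              nu P R ((x : ℤ) + t) := by rw [sum_image hinj]
        _ ≤ _ := by
            refine sum_le_sum_of_subset_of_nonneg ?_ fun _ _ _ => nu_nonneg _
            intro t ht
            obtain ⟨p, hp, rfl⟩ := mem_image.mp ht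
            have := mem_Ioc.mp (mem_filter.mp hp).1
            rw [mem_Ioc]; omega
    have h5 : H / gg P R ≤ H / log (R + 1) := by gcongr
    have h6 : 2 * H / log (R + 1) = 2 * (H / log (R + 1)) := by ring
    have h7 : 0 ≤ H / log (R + 1) := by positivity
    gcongr
    linarith
  have h3 : E'.card * (H / log (R + 1)) ^ 2 ≤ X * mert P ^ 20 * H + (H : ℝ) ^ 2 * (R : ℝ) ^ 8 := by
    refine le_trans ?_ hv2
    calc _ = ∑ x ∈ E', (H / log (R + 1)) ^ 2 := by simp
      _ ≤ ∑ x ∈ E', (∑ t ∈ Ioc (0 : ℤ) (0 + H), nu P R ((x : ℤ) + t) - H / gg P R) ^ 2 :=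
          sum_le_sum h2
      _ = ∑ s ∈ E'.image (fun x : ℕ => (x : ℤ)),
            (∑ t ∈ Ioc (0 : ℤ) (0 + H), nu P R (s + t) - H / gg P R) ^ 2 := by
          rw [sum_image fun a _ b _ h => by exact_mod_cast h]
      _ ≤ _ := by
          refine sum_le_sum_of_subset_of_nonneg ?_ fun _ _ _ => sq_nonneg _
          intro s hs
          obtain ⟨x, hx, rfl⟩ := mem_image.mp hs
          have := mem_Ioc.mp (mem_filter.mp (mem_filter.mp hx).1).1
          rw [mem_Ioc]; omega
  have h4 : (E'.card : ℝ) ≤ (X * mert P ^ 20 / H + (R : ℝ) ^ 8) * log (R + 1) ^ 2 := by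
    rw [← le_div_iff₀ (by positivity)] at h3
    refine h3.trans (le_of_eq ?_)
    field_simp
  have h5 : (E.card : ℝ) ≤ R + E'.card := by exact_mod_cast h1
  linarith

lemma card_dvd_le (hP : ∀ l ∈ P, l.Prime) {h : ℤ} (h0 : h ≠ 0) {H : ℝ} (hH : |(h : ℝ)| ≤ H) :
    ((P.filter fun l : ℕ => (l : ℤ) ∣ h).card : ℝ) ≤ 2 * log H := by
  set F := P.filter fun l : ℕ => (l : ℤ) ∣ h with hF
  have h1 : 2 ^ F.card ≤ ∏ l ∈ F, l :=
    pow_card_le_prod F _ 2 fun l hl => (hP l (mem_filter.mp hl).1).two_le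
  have h2 : ∏ l ∈ F, l ∣ h.natAbs :=
    prod_primes_dvd _ (fun l hl => (hP l (mem_filter.mp hl).1).prime)
      fun l hl => Int.natCast_dvd.mp (mem_filter.mp hl).2
  have h3 : 2 ^ F.card ≤ h.natAbs := h1.trans (Nat.le_of_dvd (Int.natAbs_pos.mpr h0) h2)
  have h4 : (2 : ℝ) ^ F.card ≤ H := by
    refine le_trans ?_ hH
    rw [← Int.cast_abs, ← Int.natCast_natAbs]
    exact_mod_cast h3
  have h5 := log_le_log (by positivity) h4
  rw [log_pow] at h5
  have h6 := log_two_gt_d9
  have h7 : (0 : ℝ) ≤ F.card := Nat.cast_nonneg _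
  nlinarith

lemma phi_sparse (hP : ∀ l ∈ P, l.Prime) {w : ℕ} (hw : 1 ≤ w) (hPw : ∀ l ∈ P, w < l)
    (T : Finset ℤ) {H : ℝ} (hT : ∀ t ∈ T, ∀ t' ∈ T, |((t - t' : ℤ) : ℝ)| ≤ H) (hH : 1 ≤ H)
    (hsmall : 18 * (1 + log H) ≤ w) :
    ∑ U ∈ P.powerset.erase ∅, 9 ^ U.card * |∑ t ∈ T, ∑ t' ∈ T, ∏ l ∈ U, rho l (t - t')|
      ≤ T.card * mert P ^ 9 + (T.card : ℝ) ^ 2 * (36 * (1 + log H) / w) := by
  have hw' : (0 : ℝ) < w := by exact_mod_cast hw
  have hlog := log_nonneg hH
  have hm := one_le_mert hP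
  have h1 : ∀ h : ℤ, ∑ U ∈ P.powerset.erase ∅, ∏ l ∈ U, (9 * |rho l h|)
      = ∏ l ∈ P, (1 + 9 * |rho l h|) - 1 := by
    intro h
    rw [prod_one_add, ← add_sum_erase _ _ (empty_mem_powerset P), prod_empty]; ring
  have h2 : ∀ t ∈ T, ∀ t' ∈ T, ∏ l ∈ P, (1 + 9 * |rho l (t - t')|) - 1 ≤
      (if t = t' then mert P ^ 9 else 0) + 36 * (1 + log H) / w := by
    intro t ht t' ht'
    have hpos : 0 ≤ 36 * (1 + log H) / w := by positivity
    split_ifs with he
    · subst he
      have h3 := prod_one_add_mul_le hP 9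
      have h4 : ∏ l ∈ P, (1 + 9 * |rho l (t - t)|) = ∏ l ∈ P, (1 + ((9 : ℕ) : ℝ) * uu l) := by
        refine prod_congr rfl fun l hl => ?_
        rw [sub_self, rho, if_pos (dvd_zero _), abs_of_pos (uu_pos (hP l hl))]; norm_num
      linarith
    · have h3 : ∑ l ∈ P, |rho l (t - t')| ≤ 2 * (1 + log H) / w := by
        have h4 := sum_uu_sq_le hw hPw
        have h5 := card_dvd_le hP (sub_ne_zero.mpr he) (hT t ht t' ht')
        calc _ ≤ ∑ l ∈ P, (uu l ^ 2 + if (l : ℤ) ∣ t - t' then 1 / (w : ℝ) else 0) := by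
              refine sum_le_sum fun l hl => ?_
              unfold rho
              split_ifs
              · rw [abs_of_pos (uu_pos (hP l hl))]
                have h6 : (w : ℝ) + 1 ≤ l := by exact_mod_cast hPw l hl
                have h7 : uu l ≤ 1 / w := by
                  unfold uu; gcongr; linarith
                nlinarith [sq_nonneg (uu l)]
              · simp
          _ = ∑ l ∈ P, uu l ^ 2 + (P.filter fun l : ℕ => (l : ℤ) ∣ t - t').card * (1 / w) := by
              rw [sum_add_distrib, ← sum_filter, sum_const, nsmul_eq_mul]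
          _ ≤ 2 / w + 2 * log H * (1 / w) := by gcongr
          _ = _ := by ring
      have h4 : ∏ l ∈ P, (1 + 9 * |rho l (t - t')|) ≤ exp (18 * (1 + log H) / w) := by
        calc _ ≤ ∏ l ∈ P, exp (9 * |rho l (t - t')|) := by
              refine prod_le_prod (fun l _ => by positivity) fun l _ => ?_
              linarith [add_one_le_exp (9 * |rho l (t - t')|)]
          _ = exp (9 * ∑ l ∈ P, |rho l (t - t')|) := by rw [← exp_sum, mul_sum]
          _ ≤ _ := by
              apply exp_le_exp.mpr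
              have e : 18 * (1 + log H) / w = 9 * (2 * (1 + log H) / w) := by ring
              rw [e]; gcongr
      have h5 : 0 ≤ 18 * (1 + log H) / w := by positivity
      have h6 := Real.abs_exp_sub_one_le (x := 18 * (1 + log H) / w)
        (by rw [abs_of_nonneg h5, div_le_one hw']; exact hsmall)
      rw [abs_of_nonneg h5] at h6
      have h7 := le_abs_self (exp (18 * (1 + log H) / w) - 1)
      have e : 36 * (1 + log H) / w = 2 * (18 * (1 + log H) / w) := by ring
      linarith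
  calc _ ≤ ∑ U ∈ P.powerset.erase ∅, ∑ t ∈ T, ∑ t' ∈ T, ∏ l ∈ U, (9 * |rho l (t - t')|) := by
        refine sum_le_sum fun U _ => ?_
        calc _ ≤ 9 ^ U.card * ∑ t ∈ T, ∑ t' ∈ T, |∏ l ∈ U, rho l (t - t')| := by
              gcongr
              exact (abs_sum_le_sum_abs _ _).trans (sum_le_sum fun t _ => abs_sum_le_sum_abs _ _)
          _ = _ := by
              simp only [mul_sum]
              refine sum_congr rfl fun t _ => sum_congr rfl fun t' _ => ?_
              rw [prod_mul_distrib, prod_const, abs_prod]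
    _ = ∑ t ∈ T, ∑ t' ∈ T, (∏ l ∈ P, (1 + 9 * |rho l (t - t')|) - 1) := by
        rw [sum_comm]
        refine sum_congr rfl fun t _ => ?_
        rw [sum_comm]
        exact sum_congr rfl fun t' _ => h1 _
    _ ≤ ∑ t ∈ T, ∑ t' ∈ T, ((if t = t' then mert P ^ 9 else 0) + 36 * (1 + log H) / w) :=
        sum_le_sum fun t ht => sum_le_sum fun t' ht' => h2 t ht t' ht'
    _ = _ := by
        simp only [sum_add_distrib, sum_const, nsmul_eq_mul]
        rw [sum_congr rfl fun t ht => sum_ite_eq T t (fun _ => mert P ^ 9),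
          sum_congr rfl fun t ht => if_pos ht, sum_const, nsmul_eq_mul]
        ring

/-- The basic sumset inequality. -/
lemma sumset_le (hP : ∀ l ∈ P, l.Prime) (hR : 1 ≤ R) (A T S : Finset ℤ) (y : ℤ) (N : ℕ)
    (hA : ∀ a ∈ A, ∀ l ∈ P, ¬ (l : ℤ) ∣ a) (hS : ∀ a ∈ A, ∀ t ∈ T, a - t ∈ S)
    (hW : ∀ a ∈ A, ∀ t ∈ T, a - t ∈ Ioc y (y + N)) {m V : ℝ} (hm : 0 < m)
    (hm' : T.card / gg P R ≤ m)
    (hV : ∑ s ∈ Ioc y (y + N), (∑ t ∈ T, nu P R (s + t) - T.card / gg P R) ^ 2 ≤ V) :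
    (A.card : ℝ) * T.card ≤ 2 * m * S.card + 2 * V / m := by
  set S' := S ∩ Ioc y (y + N) with hS'
  have h1 : ∀ t ∈ T, (A.card : ℝ) ≤ ∑ s ∈ S', nu P R (s + t) := by
    intro t ht
    calc (A.card : ℝ) = ∑ a ∈ A, nu P R (a - t + t) := by
          rw [card_eq_sum_ones, Nat.cast_sum]
          refine sum_congr rfl fun a ha => ?_
          rw [sub_add_cancel, nu_eq_one hP hR (hA a ha), Nat.cast_one]
      _ = ∑ s ∈ A.image (· - t), nu P R (s + t) := by
          rw [sum_image fun a _ b _ h => sub_left_injective h]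
      _ ≤ _ := by
          refine sum_le_sum_of_subset_of_nonneg ?_ fun _ _ _ => nu_nonneg _
          intro s hs
          obtain ⟨a, ha, rfl⟩ := mem_image.mp hs
          exact mem_inter.mpr ⟨hS a ha t ht, hW a ha t ht⟩
  have h2 : ∀ r m0 : ℝ, m0 ≤ m → r ≤ 2 * m + 2 * (r - m0) ^ 2 / m := by
    intro r m0 h0
    by_cases h : r ≤ 2 * m
    · have : 0 ≤ 2 * (r - m0) ^ 2 / m := by positivity
      linarith
    · push Not at h
      have h3 : r ≤ 2 * (r - m0) ^ 2 / m := by
        rw [le_div_iff₀ hm]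
        have h4 : m ≤ r - m0 := by linarith
        have h5 : r ≤ 2 * (r - m0) := by linarith
        nlinarith
      linarith
  calc (A.card : ℝ) * T.card = ∑ t ∈ T, (A.card : ℝ) := by simp [mul_comm]
    _ ≤ ∑ t ∈ T, ∑ s ∈ S', nu P R (s + t) := sum_le_sum h1
    _ = ∑ s ∈ S', ∑ t ∈ T, nu P R (s + t) := sum_comm
    _ ≤ ∑ s ∈ S', (2 * m + 2 * (∑ t ∈ T, nu P R (s + t) - T.card / gg P R) ^ 2 / m) :=
        sum_le_sum fun s _ => h2 _ _ hm'
    _ = 2 * m * S'.card + 2 * (∑ s ∈ S', (∑ t ∈ T, nu P R (s + t) - T.card / gg P R) ^ 2) / m := by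
        rw [sum_add_distrib, sum_const, nsmul_eq_mul, ← sum_div, ← mul_sum]; ring
    _ ≤ _ := by
        have h3 : (S'.card : ℝ) ≤ S.card := by exact_mod_cast card_le_card inter_subset_left
        have h4 : ∑ s ∈ S', (∑ t ∈ T, nu P R (s + t) - T.card / gg P R) ^ 2 ≤ V :=
          (sum_le_sum_of_subset_of_nonneg inter_subset_right fun _ _ _ => sq_nonneg _).trans hV
        gcongr

end Pool.Agent.Lib.MP_778b46_nt
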