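import Pool.Agent.Lib.MP_778b46_nt.Iter

/-!
Long intervals of integers that are sums of distinct iterated primes below a given bound.
-/

open Finset Real Filter

namespace Pool.Agent.Lib.MP_778b46_nt

lemma ev_card_pow (k m : ℕ) : ∀ᶠ v : ℕ in atTop, 8 * v ^ m ≤ (itLE k (v ^ (m + 1))).card := by
  obtain ⟨c, hc, h⟩ := card_itLE_ge k
  have ht : Tendsto (fun v : ℕ => v ^ (m + 1)) atTop atTop := tendsto_pow_atTop (by omega)
  filter_upwards [ht.eventually h, ev_log_pow_le_sqrt_nat k (8 * (m + 1) ^ k / c),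
    eventually_ge_atTop 2] with v h1 h2 h3
  have hv : (2 : ℝ) ≤ v := by exact_mod_cast h3
  have hl : 0 < log (v : ℝ) := log_pos (by linarith)
  have h4 : √(v : ℝ) ≤ v := by
    rw [sqrt_le_left (by linarith)]; nlinarith
  have h5 : 8 * ((m + 1) * log v) ^ k ≤ c * v := by
    have := h2.trans h4
    rw [div_mul_eq_mul_div, div_le_iff₀ hc] at this
    rw [mul_pow]; linarith
  have h6 : (8 * (v : ℝ) ^ m) ≤ (itLE k (v ^ (m + 1))).card := by
    refine le_trans ?_ h1
    push_cast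
    rw [log_pow, le_div_iff₀ (by positivity)]
    push_cast
    have h7 : (0 : ℝ) ≤ (v : ℝ) ^ m := by positivity
    have := mul_le_mul_of_nonneg_left h5 h7
    rw [pow_succ]; linarith
  exact_mod_cast h6

lemma card_above (k X Y : ℕ) : (itLE k X).card ≤ ((itLE k X).filter (Y < ·)).card + Y := by
  have h : itLE k X ⊆ (itLE k X).filter (Y < ·) ∪ Ioc 0 Y := by
    intro y hy
    rw [mem_union, mem_filter, mem_Ioc]
    have := (mem_itLE.mp hy).2.pos
    by_cases h : Y < y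
    · exact Or.inl ⟨hy, h⟩
    · exact Or.inr ⟨this, by omega⟩
  have := (card_le_card h).trans (card_union_le _ _)
  simpa using this

lemma richert (B : Finset ℕ) (R l : ℕ) (hB : ∀ n, R ≤ n → n ≤ R + l → ∃ s ⊆ B, ∑ y ∈ s, y = n)
    (E : Finset ℕ) : Disjoint E B → (∀ y ∈ E, y ≤ l) →
    ∀ n, R ≤ n → n ≤ R + l + ∑ y ∈ E, y → ∃ s ⊆ B ∪ E, ∑ y ∈ s, y = n := by
  induction E using Finset.induction_on with
  | empty => intro _ _ n h1 h2; simpa using hB n h1 (by simpa using h2)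
  | insert z E hz ih =>
    intro hd hl n h1 h2
    obtain ⟨hzB, hd'⟩ := disjoint_insert_left.mp hd
    have ih' := ih hd' fun y hy => hl y (mem_insert_of_mem hy)
    have hsub : B ∪ E ⊆ B ∪ insert z E := union_subset_union_right (subset_insert _ _)
    rw [sum_insert hz] at h2
    have hzl := hl z (mem_insert_self _ _)
    by_cases h : n ≤ R + l + ∑ y ∈ E, y
    · obtain ⟨s, hs1, hs2⟩ := ih' n h1 h
      exact ⟨s, hs1.trans hsub, hs2⟩
    · obtain ⟨s, hs1, hs2⟩ := ih' (n - z) (by omega) (by omega)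
      have hzs : z ∉ s := fun h => by
        rcases mem_union.mp (hs1 h) with h | h
        exacts [hzB h, hz h]
      refine ⟨insert z s, insert_subset (mem_union_right _ (mem_insert_self _ _))
        (hs1.trans hsub), ?_⟩
      rw [sum_insert hzs, hs2]; omega

lemma ap_sums (M P : Finset ℕ) (d v : ℕ)
    (hP : ∀ i ∈ P, ∃ x ∈ M, x + d ∈ M ∧ x / v = i ∧ (x + d) / v = i) :
    ∃ s0 : ℕ, ∀ i ≤ P.card, ∃ s ⊆ M, s.card = P.card ∧ ∑ y ∈ s, y = s0 + i * d := by
  choose! f hf using hP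
  refine ⟨∑ j ∈ P, f j, fun i hi => ?_⟩
  obtain ⟨J, hJ1, hJ2⟩ := exists_subset_card_eq hi
  set g : ℕ → ℕ := fun j => f j + if j ∈ J then d else 0 with hg
  have h1 : ∀ j ∈ P, g j ∈ M ∧ g j / v = j := by
    intro j hj
    obtain ⟨a1, a2, a3, a4⟩ := hf j hj
    simp only [hg]
    split_ifs
    exacts [⟨a2, a4⟩, ⟨a1, a3⟩]
  have h2 : Set.InjOn g P := fun a ha b hb h => by
    rw [← (h1 a ha).2, ← (h1 b hb).2, h]
  refine ⟨P.image g, fun y hy => ?_, card_image_of_injOn h2, ?_⟩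
  · obtain ⟨j, hj, rfl⟩ := mem_image.mp hy
    exact (h1 j hj).1
  · rw [sum_image h2]
    simp only [hg]
    rw [sum_add_distrib, sum_ite_mem, inter_eq_right.mpr hJ1, sum_const, hJ2, smul_eq_mul]

lemma res_sums (G : Finset ℕ) (d : ℕ) (hd : 0 < d) (hG : ∀ y ∈ G, Nat.Coprime y d)
    (hc : d * d ≤ G.card) (t : ℕ) : ∃ s ⊆ G, s.card ≤ d ∧ ∑ y ∈ s, y ≡ t [MOD d] := by
  have : NeZero d := ⟨hd.ne'⟩
  obtain ⟨r, -, hr⟩ := exists_le_card_fiber_of_mul_le_card_of_maps_to (s := G) (t := range d)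
    (f := fun y => y % d) (n := d) (fun y _ => mem_range.mpr (Nat.mod_lt y hd))
    ⟨0, mem_range.mpr hd⟩ (by rwa [card_range])
  obtain ⟨y0, hy0⟩ := card_pos.mp (lt_of_lt_of_le hd hr)
  obtain ⟨hy1, hy2⟩ := mem_filter.mp hy0
  obtain ⟨u, hu⟩ := (ZMod.isUnit_iff_coprime y0 d).mpr (hG y0 hy1)
  set i := ((t : ZMod d) * (u⁻¹ : (ZMod d)ˣ)).val with hi
  have hid : i < d := ZMod.val_lt _
  obtain ⟨s, hs1, hs2⟩ := exists_subset_card_eq (hid.le.trans hr)
  refine ⟨s, hs1.trans (filter_subset _ _), by omega, ?_⟩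
  rw [← ZMod.natCast_eq_natCast_iff]
  have h1 : ∀ y ∈ s, (y : ZMod d) = u := fun y hy => by
    rw [hu, ZMod.natCast_eq_natCast_iff']
    rw [(mem_filter.mp (hs1 hy)).2, hy2]
  rw [Nat.cast_sum, sum_congr rfl h1, sum_const, hs2, nsmul_eq_mul, hi, ZMod.natCast_zmod_val,
    mul_assoc, Units.inv_mul, mul_one]

lemma many_pairs (M : Finset ℕ) (v N T : ℕ) (hv : 0 < v) (hM : ∀ x ∈ M, x / v < N)
    (hc : N + v * (v * T) < M.card) : ∃ (d : ℕ) (P : Finset ℕ), 0 < d ∧ d < v ∧ T ≤ P.card ∧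
      P.card ≤ N ∧ ∀ i ∈ P, ∃ x ∈ M, x + d ∈ M ∧ x / v = i ∧ (x + d) / v = i := by
  classical
  set P : ℕ → Finset ℕ := fun d => (range N).filter
    fun i => ∃ x ∈ M, x + d ∈ M ∧ x / v = i ∧ (x + d) / v = i with hP
  by_contra hcon
  have h1 : ∀ d ∈ Ioo 0 v, (P d).card ≤ T := by
    intro d hd
    by_contra h
    rw [mem_Ioo] at hd
    refine hcon ⟨d, P d, hd.1, hd.2, by omega, ?_, fun i hi => (mem_filter.mp hi).2⟩
    simpa using card_filter_le (range N) _
  set U := (Ioo 0 v).biUnion P with hU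
  have h2 : U.card ≤ v * T := by
    refine (card_biUnion_le_card_mul _ _ T h1).trans (Nat.mul_le_mul_right _ ?_)
    simp
  have h3 : M.card = ∑ i ∈ range N, (M.filter (· / v = i)).card :=
    card_eq_sum_card_fiberwise fun x hx => mem_range.mpr (hM x hx)
  have h4 : ∀ i ∈ range N, (M.filter (· / v = i)).card ≤ 1 + if i ∈ U then v else 0 := by
    intro i hi
    have hb : ∀ x, x / v = i → v * i ≤ x ∧ x < v * i + v := fun x hx => by
      rw [← hx]; exact ⟨Nat.mul_div_le x v, Nat.lt_mul_div_succ x hv⟩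
    split_ifs with h
    · have : M.filter (· / v = i) ⊆ Ico (v * i) (v * i + v) := fun x hx =>
        mem_Ico.mpr (hb x (mem_filter.mp hx).2)
      have := card_le_card this
      simp only [Nat.card_Ico] at this
      omega
    · have key : ∀ x ∈ M.filter (· / v = i), ∀ y ∈ M.filter (· / v = i), ¬ x < y := by
        intro x hx y hy hxy
        obtain ⟨hx1, hx2⟩ := mem_filter.mp hx
        obtain ⟨hy1, hy2⟩ := mem_filter.mp hy
        have := hb x hx2
        have := hb y hy2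
        refine h (mem_biUnion.mpr ⟨y - x, mem_Ioo.mpr ⟨by omega, by omega⟩, ?_⟩)
        have e : x + (y - x) = y := by omega
        exact mem_filter.mpr ⟨hi, x, hx1, by rw [e]; exact hy1, hx2, by rw [e]; exact hy2⟩
      exact card_le_one.mpr fun x hx y hy =>
        le_antisymm (not_lt.mp (key y hy x hx)) (not_lt.mp (key x hx y hy))
  have h5 := sum_le_sum h4
  rw [← h3, sum_add_distrib, sum_const, card_range, smul_eq_mul, mul_one, sum_ite_mem, sum_const,
    smul_eq_mul] at h5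
  have h6 : (range N ∩ U).card ≤ v * T := (card_le_card inter_subset_right).trans h2
  have h7 := Nat.mul_le_mul_right v h6
  nlinarith

theorem base (k K X0 : ℕ) : ∃ (X R : ℕ) (B : Finset ℕ), X0 ≤ X ∧ X0 ≤ R ∧ R ≤ X ^ 3 ∧
    (∀ y ∈ B, IsIt (k + 1) y ∧ y < X) ∧
    ∀ n, R ≤ n → n ≤ R + K * X → ∃ s ⊆ B, ∑ y ∈ s, y = n := by
  obtain ⟨v, ⟨h3, h11, h15⟩, hv2, hvK, hv0⟩ := (((ev_card_pow (k + 1) 3).and
    ((ev_card_pow (k + 1) 11).and (ev_card_pow (k + 1) 15))).and ((eventually_ge_atTop 2).and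
    ((eventually_ge_atTop K).and (eventually_ge_atTop X0)))).exists
  have hp : ∀ a b : ℕ, a ≤ b → v ^ a ≤ v ^ b := fun a b h => Nat.pow_le_pow_right (by omega) h
  have hp1 : ∀ a : ℕ, 1 ≤ v ^ a := fun a => Nat.one_le_pow _ _ (by omega)
  set M := (itLE (k + 1) (v ^ 16)).filter (v ^ 12 < ·) with hM
  set E := (itLE (k + 1) (v ^ 12)).filter (v ^ 10 < ·) with hE
  set G := (itLE (k + 1) (v ^ 4)).filter (v < ·) with hG
  have cM := card_above (k + 1) (v ^ 16) (v ^ 12)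
  have cE := card_above (k + 1) (v ^ 12) (v ^ 10)
  have cG := card_above (k + 1) (v ^ 4) v
  rw [← hM] at cM
  rw [← hE] at cE
  rw [← hG] at cG
  norm_num at h3 h11 h15
  have mM : ∀ y ∈ M, IsIt (k + 1) y ∧ v ^ 12 < y ∧ y ≤ v ^ 16 := fun y hy =>
    ⟨(mem_itLE.mp (mem_filter.mp hy).1).2, (mem_filter.mp hy).2,
      (mem_itLE.mp (mem_filter.mp hy).1).1⟩
  have mE : ∀ y ∈ E, IsIt (k + 1) y ∧ v ^ 10 < y ∧ y ≤ v ^ 12 := fun y hy =>
    ⟨(mem_itLE.mp (mem_filter.mp hy).1).2, (mem_filter.mp hy).2,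
      (mem_itLE.mp (mem_filter.mp hy).1).1⟩
  have mG : ∀ y ∈ G, IsIt (k + 1) y ∧ v < y ∧ y ≤ v ^ 4 := fun y hy =>
    ⟨(mem_itLE.mp (mem_filter.mp hy).1).2, (mem_filter.mp hy).2,
      (mem_itLE.mp (mem_filter.mp hy).1).1⟩
  obtain ⟨d, P, hd0, hdv, hP1, hP2, hP3⟩ := many_pairs M v (v ^ 15 + 1) (2 * v ^ 12) (by omega)
    (fun x hx => by
      have : x / v ≤ v ^ 16 / v := Nat.div_le_div_right (mM x hx).2.2
      rw [show v ^ 16 = v * v ^ 15 by ring, Nat.mul_div_cancel_left _ (by omega)] at this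
      omega)
    (by
      have e : v * (v * (2 * v ^ 12)) = 2 * v ^ 14 := by ring
      have := hp 14 15 (by omega)
      have := hp 12 15 (by omega)
      have := hp1 15
      omega)
  obtain ⟨s0, hs0⟩ := ap_sums M P d v hP3
  have hGc : ∀ y ∈ G, Nat.Coprime y d := fun y hy =>
    (Nat.Prime.coprime_iff_not_dvd (mG y hy).1.prime).mpr
      (Nat.not_dvd_of_pos_of_lt hd0 (by have := (mG y hy).2.1; omega))
  have hGd : d * d ≤ G.card := by
    have h1 : d * d ≤ v ^ 2 := by nlinarith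
    have := hp 2 3 (by omega)
    have := hp 1 3 (by omega)
    rw [pow_one] at this
    omega
  have h410 := hp 4 10 (by omega)
  have h1012 := hp 10 12 (by omega)
  have h1216 := hp 12 16 (by omega)
  have h512 := hp 5 12 (by omega)
  have hB : ∀ n, s0 + v ^ 5 ≤ n → n ≤ s0 + v ^ 5 + v ^ 12 → ∃ s ⊆ M ∪ G, ∑ y ∈ s, y = n := by
    intro n h1 h2
    obtain ⟨s2, a1, a2, a3⟩ := res_sums G d hd0 hGc hGd (n - s0)
    have a4 : ∑ y ∈ s2, y ≤ v ^ 5 := by
      have := sum_le_card_nsmul s2 (fun y => y) (v ^ 4) fun y hy => (mG y (a1 hy)).2.2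
      rw [smul_eq_mul] at this
      have h5 : s2.card * v ^ 4 ≤ v * v ^ 4 := Nat.mul_le_mul_right _ (by omega)
      have e : v * v ^ 4 = v ^ 5 := by ring
      omega
    obtain ⟨i, hi⟩ := (Nat.modEq_iff_dvd' (by omega)).mp a3
    have hiP : i ≤ P.card := by
      have : i ≤ d * i := Nat.le_mul_of_pos_left _ hd0
      omega
    obtain ⟨s1, b1, -, b2⟩ := hs0 i hiP
    refine ⟨s1 ∪ s2, union_subset_union b1 a1, ?_⟩
    rw [sum_union (disjoint_left.mpr fun y h1 h2 => by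
      have := mM y (b1 h1)
      have := mG y (a1 h2)
      omega), b2, mul_comm i d]
    omega
  have hR := richert (M ∪ G) (s0 + v ^ 5) (v ^ 12) hB E (disjoint_left.mpr fun y h1 h2 => by
    have := mE y h1
    rcases mem_union.mp h2 with h | h
    · have := mM y h; omega
    · have := mG y h; omega) fun y hy => (mE y hy).2.2
  have hv1 := hp 1 5 (by omega)
  rw [pow_one] at hv1
  refine ⟨v ^ 16 + 1, s0 + v ^ 5, M ∪ G ∪ E, by omega, by omega, ?_, fun y hy => ?_,
    fun n h1 h2 => hR n h1 (h2.trans ?_)⟩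
  · obtain ⟨s, b1, b2, b3⟩ := hs0 0 (Nat.zero_le _)
    have := sum_le_card_nsmul s (fun y => y) (v ^ 16) fun y hy => (mM y (b1 hy)).2.2
    rw [smul_eq_mul, b3, b2] at this
    have h5 : P.card * v ^ 16 ≤ (v ^ 16 + 1) * v ^ 16 :=
      Nat.mul_le_mul_right _ (by have := hp 15 16 (by omega); omega)
    have h6 := hp1 16
    have h7 : v ^ 5 ≤ v ^ 16 := by omega
    generalize v ^ 16 = w at *
    nlinarith [Nat.zero_le (w ^ 3), Nat.zero_le (w ^ 2)]
  · rcases mem_union.mp hy with h | h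
    · rcases mem_union.mp h with h | h
      · have := mM y h; exact ⟨this.1, by omega⟩
      · have := mG y h; exact ⟨this.1, by omega⟩
    · have := mE y h; exact ⟨this.1, by omega⟩
  · have := card_nsmul_le_sum E (fun y => y) (v ^ 10) fun y hy => (mE y hy).2.1.le
    rw [smul_eq_mul] at this
    have h5 : v ^ 11 * v ^ 10 * 2 ≤ E.card * v ^ 10 := by
      have := hp 10 11 (by omega)
      have h : v ^ 11 * 2 ≤ E.card := by omega
      rw [mul_right_comm]
      exact Nat.mul_le_mul_right _ h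
    have h6 : K * (v ^ 16 + 1) ≤ v * (v ^ 16 * 2) :=
      Nat.mul_le_mul hvK (by have := hp1 16; omega)
    have e1 : v * (v ^ 16 * 2) = v ^ 17 * 2 := by ring
    have e2 : v ^ 11 * v ^ 10 * 2 = v ^ 21 * 2 := by ring
    have := hp 17 21 (by omega)
    omega

end Pool.Agent.Lib.MP_778b46_nt
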