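import Pool.Agent.Lib.MP_778b46_nt.Period
import Pool.Agent.Lib.MP_778b46_nt.Mertens

/-!
The Selberg majorant in orthogonal form and a variance bound for its sums over translates.
-/

open Finset Real

namespace Pool.Agent.Lib.MP_778b46_nt

noncomputable def ps (l : ℕ) (n : ℤ) : ℝ := if (l : ℤ) ∣ n then -1 else uu l

noncomputable def sig (P : Finset ℕ) (R : ℕ) (n : ℤ) : ℝ := ∑ S ∈ dd P R, ∏ l ∈ S, ps l n

noncomputable def nu (P : Finset ℕ) (R : ℕ) (n : ℤ) : ℝ := (sig P R n / gg P R) ^ 2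

noncomputable def al (l : ℕ) (S T : Finset ℕ) : ℝ :=
  if l ∈ S then (if l ∈ T then uu l else 0) else (if l ∈ T then 0 else 1)

noncomputable def ga (l : ℕ) (S T : Finset ℕ) : ℝ :=
  if l ∈ S then (if l ∈ T then uu l - 1 else 1) else (if l ∈ T then 1 else 0)

noncomputable def beta (P : Finset ℕ) (R : ℕ) (U : Finset ℕ) : ℝ :=
  ∑ S ∈ dd P R, ∑ T ∈ dd P R, (∏ l ∈ U, ga l S T) * ∏ l ∈ P \ U, al l S T

noncomputable def rho (l : ℕ) (h : ℤ) : ℝ := if (l : ℤ) ∣ h then uu l else - uu l ^ 2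

variable {P : Finset ℕ} {R : ℕ}

lemma subset_of_mem_dd {S : Finset ℕ} (h : S ∈ dd P R) : S ⊆ P :=
  mem_powerset.mp (mem_filter.mp h).1

lemma one_le_gg (hP : ∀ l ∈ P, l.Prime) (hR : 1 ≤ R) : 1 ≤ gg P R := by
  have h : (∅ : Finset ℕ) ∈ dd P R := by simp [dd, hR]
  have := single_le_sum (f := fun S : Finset ℕ => ∏ l ∈ S, uu l) (s := dd P R)
    (fun S hS => prod_nonneg fun l hl => (uu_pos (hP l (subset_of_mem_dd hS hl))).le) h
  simpa [gg] using this

lemma nu_nonneg (n : ℤ) : 0 ≤ nu P R n := sq_nonneg _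

lemma nu_eq_one (hP : ∀ l ∈ P, l.Prime) (hR : 1 ≤ R) {n : ℤ} (hn : ∀ l ∈ P, ¬ (l : ℤ) ∣ n) :
    nu P R n = 1 := by
  have h : sig P R n = gg P R := by
    refine sum_congr rfl fun S hS => prod_congr rfl fun l hl => ?_
    rw [ps, if_neg (hn l (subset_of_mem_dd hS hl))]
  have := one_le_gg hP hR
  rw [nu, h, div_self (by linarith), one_pow]

lemma card_dd_le (hP : ∀ l ∈ P, l.Prime) : (dd P R).card ≤ R := by
  have h := card_le_card_of_injOn (s := dd P R) (t := Icc 1 R) (fun S => ∏ l ∈ S, l) ?_ ?_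
  · simpa using h
  · intro S hS
    have hS' : S ∈ dd P R := hS
    simp only [coe_Icc, Set.mem_Icc]
    exact ⟨prod_pos fun l hl => (hP l (subset_of_mem_dd hS' hl)).pos, (mem_filter.mp hS').2⟩
  · intro S hS T hT h
    have hS' : S ∈ dd P R := hS
    have hT' : T ∈ dd P R := hT
    rw [← Nat.primeFactors_prod (s := S) fun l hl => hP l (subset_of_mem_dd hS' hl),
      ← Nat.primeFactors_prod (s := T) fun l hl => hP l (subset_of_mem_dd hT' hl)]
    exact congrArg _ h

lemma prod_eq_prod_ite {S : Finset ℕ} (h : S ⊆ P) (f : ℕ → ℝ) :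
    ∏ l ∈ S, f l = ∏ l ∈ P, if l ∈ S then f l else 1 := by
  rw [prod_ite_mem, inter_eq_right.mpr h]

lemma sig_sq (n : ℤ) : sig P R n ^ 2 = ∑ U ∈ P.powerset, beta P R U * ∏ l ∈ U, ps l n := by
  rw [sq, sig, sum_mul_sum]
  simp only [beta, sum_mul]
  rw [sum_comm (s := P.powerset)]
  refine sum_congr rfl fun S hS => ?_
  rw [sum_comm (s := P.powerset)]
  refine sum_congr rfl fun T hT => ?_
  rw [prod_eq_prod_ite (subset_of_mem_dd hS), prod_eq_prod_ite (subset_of_mem_dd hT),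
    ← prod_mul_distrib]
  have h : ∀ l ∈ P, (if l ∈ S then ps l n else 1) * (if l ∈ T then ps l n else 1)
      = ga l S T * ps l n + al l S T := by
    intro l _
    unfold ga al ps
    split_ifs <;> ring
  rw [prod_congr rfl h, prod_add]
  refine sum_congr rfl fun U _ => ?_
  rw [prod_mul_distrib]; ring

lemma beta_empty : beta P R ∅ = gg P R := by
  unfold beta gg
  refine sum_congr rfl fun S hS => ?_
  rw [sum_eq_single_of_mem S hS]
  · rw [prod_empty, one_mul, sdiff_empty, prod_eq_prod_ite (subset_of_mem_dd hS)]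
    refine prod_congr rfl fun l _ => ?_
    unfold al
    split_ifs <;> rfl
  · intro T hT hne
    rw [prod_empty, one_mul, sdiff_empty]
    have : ∃ l, ¬ (l ∈ T ↔ l ∈ S) := by
      by_contra hcon
      push Not at hcon
      exact hne (Finset.ext hcon)
    obtain ⟨l, hl⟩ := this
    have hlP : l ∈ P := by
      by_cases h : l ∈ T
      · exact subset_of_mem_dd hT h
      · exact subset_of_mem_dd hS (by tauto)
    refine prod_eq_zero hlP ?_
    unfold al
    split_ifs <;> tauto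

lemma sum_powerset_prod_ite (f g : ℕ → ℝ) :
    ∑ S ∈ P.powerset, ∏ l ∈ P, (if l ∈ S then f l else g l) = ∏ l ∈ P, (f l + g l) := by
  rw [prod_add]
  refine sum_congr rfl fun S hS => ?_
  rw [prod_ite, filter_mem_eq_inter, inter_eq_right.mpr (mem_powerset.mp hS), ← sdiff_eq_filter]

lemma al_nonneg {l : ℕ} (hl : l.Prime) (S T : Finset ℕ) : 0 ≤ al l S T := by
  have := uu_pos hl
  unfold al
  split_ifs <;> linarith

lemma abs_term (hP : ∀ l ∈ P, l.Prime) {U : Finset ℕ} (S T : Finset ℕ) :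
    |(∏ l ∈ U, ga l S T) * ∏ l ∈ P \ U, al l S T|
      = (∏ l ∈ U, |ga l S T|) * ∏ l ∈ P \ U, al l S T := by
  rw [abs_mul, abs_prod, abs_of_nonneg (prod_nonneg fun l hl => al_nonneg (hP l (mem_sdiff.mp hl).1) S T)]

lemma abs_beta_le (hP : ∀ l ∈ P, l.Prime) {U : Finset ℕ} (hU : U ⊆ P) :
    |beta P R U| ≤ 3 ^ U.card * mert P := by
  have hsub : dd P R ⊆ P.powerset := filter_subset _ _
  set z : ℕ → Finset ℕ → Finset ℕ → ℝ := fun l S T => if l ∈ U then |ga l S T| else al l S T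
    with hz
  have hz0 : ∀ S T, 0 ≤ ∏ l ∈ P, z l S T := fun S T => prod_nonneg fun l hl => by
    simp only [hz]
    split_ifs
    exacts [abs_nonneg _, al_nonneg (hP l hl) S T]
  have h1 : ∀ S T, |(∏ l ∈ U, ga l S T) * ∏ l ∈ P \ U, al l S T| = ∏ l ∈ P, z l S T := by
    intro S T
    rw [abs_term hP, prod_ite, filter_mem_eq_inter, inter_eq_right.mpr hU, ← sdiff_eq_filter]
  calc |beta P R U| ≤ ∑ S ∈ dd P R, ∑ T ∈ dd P R, ∏ l ∈ P, z l S T := by
        refine (abs_sum_le_sum_abs _ _).trans (sum_le_sum fun S _ => ?_)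
        refine (abs_sum_le_sum_abs _ _).trans (sum_le_sum fun T _ => (h1 S T).le)
    _ ≤ ∑ S ∈ P.powerset, ∑ T ∈ P.powerset, ∏ l ∈ P, z l S T := by
        refine le_trans (sum_le_sum fun S _ => ?_)
          (sum_le_sum_of_subset_of_nonneg hsub fun S _ _ => sum_nonneg fun T _ => hz0 S T)
        exact sum_le_sum_of_subset_of_nonneg hsub fun T _ _ => hz0 S T
    _ = ∑ S ∈ P.powerset, ∏ l ∈ P, (if l ∈ S then (if l ∈ U then |uu l - 1| + 1 else uu l)
          else 1) := by
        refine sum_congr rfl fun S _ => ?_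
        have h2 : ∀ T : Finset ℕ, ∏ l ∈ P, z l S T = ∏ l ∈ P, (if l ∈ T then
            (if l ∈ S then (if l ∈ U then |uu l - 1| else uu l) else (if l ∈ U then 1 else 0))
            else (if l ∈ S then (if l ∈ U then 1 else 0) else (if l ∈ U then 0 else 1))) := by
          intro T
          refine prod_congr rfl fun l _ => ?_
          simp only [hz, ga, al]
          split_ifs <;> simp
        simp only [h2]
        rw [sum_powerset_prod_ite]
        refine prod_congr rfl fun l _ => ?_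
        split_ifs <;> simp
    _ = ∏ l ∈ P, ((if l ∈ U then |uu l - 1| + 1 else uu l) + 1) := sum_powerset_prod_ite _ _
    _ ≤ ∏ l ∈ P, ((if l ∈ U then 3 else 1) * (1 + uu l)) := by
        refine prod_le_prod (fun l hl => ?_) fun l hl => ?_
        · have := uu_pos (hP l hl)
          split_ifs <;> positivity
        · have h3 := uu_pos (hP l hl)
          have h4 := uu_le_one (hP l hl)
          split_ifs
          · rw [abs_of_nonpos (by linarith)]; linarith
          · linarith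
    _ = 3 ^ U.card * mert P := by
        rw [prod_mul_distrib, ← prod_eq_prod_ite hU, prod_const, mert]

lemma sum_abs_beta_le (hP : ∀ l ∈ P, l.Prime) :
    ∑ U ∈ P.powerset, |beta P R U| ≤ (R : ℝ) ^ 2 := by
  calc ∑ U ∈ P.powerset, |beta P R U| ≤ ∑ U ∈ P.powerset, ∑ S ∈ dd P R, ∑ T ∈ dd P R,
        (∏ l ∈ U, |ga l S T|) * ∏ l ∈ P \ U, al l S T := by
        refine sum_le_sum fun U _ => (abs_sum_le_sum_abs _ _).trans (sum_le_sum fun S _ => ?_)
        exact (abs_sum_le_sum_abs _ _).trans (sum_le_sum fun T _ => (abs_term hP S T).le)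
    _ = ∑ S ∈ dd P R, ∑ T ∈ dd P R, (1 : ℝ) := by
        rw [sum_comm]
        refine sum_congr rfl fun S _ => ?_
        rw [sum_comm]
        refine sum_congr rfl fun T _ => ?_
        rw [← prod_add]
        refine prod_eq_one fun l hl => ?_
        have h4 := uu_le_one (hP l hl)
        unfold ga al
        split_ifs
        · rw [abs_of_nonpos (by linarith)]; ring
        all_goals simp
    _ ≤ (R : ℝ) ^ 2 := by
        simp only [sum_const, nsmul_eq_mul, mul_one]
        have : ((dd P R).card : ℝ) ≤ R := by exact_mod_cast card_dd_le hP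
        rw [sq]; gcongr

lemma prod_union_le (hS : ∀ l ∈ P, l.Prime) {S T : Finset ℕ} (h1 : S ⊆ P) :
    ∏ l ∈ S ∪ T, l ≤ (∏ l ∈ S, l) * ∏ l ∈ T, l := by
  rw [← prod_union_inter]
  exact Nat.le_mul_of_pos_right _
    (prod_pos fun l hl => (hS l (h1 (mem_inter.mp hl).1)).pos)

lemma prod_le_of_beta_ne (hP : ∀ l ∈ P, l.Prime) {U : Finset ℕ} (h : beta P R U ≠ 0) :
    ∏ l ∈ U, l ≤ R ^ 2 := by
  obtain ⟨S, hS, h1⟩ := exists_ne_zero_of_sum_ne_zero h
  obtain ⟨T, hT, h2⟩ := exists_ne_zero_of_sum_ne_zero h1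
  have h3 := prod_ne_zero_iff.mp (left_ne_zero_of_mul h2)
  have hsub : U ⊆ S ∪ T := by
    intro l hl
    by_contra hcon
    rw [mem_union, not_or] at hcon
    apply h3 l hl
    simp [ga, hcon.1, hcon.2]
  have hSP := subset_of_mem_dd hS
  have hTP := subset_of_mem_dd hT
  calc ∏ l ∈ U, l ≤ ∏ l ∈ S ∪ T, l := prod_le_prod_of_subset_of_one_le' hsub fun l hl _ =>
        (hP l (union_subset hSP hTP hl)).pos
    _ ≤ (∏ l ∈ S, l) * ∏ l ∈ T, l := prod_union_le hP hSP
    _ ≤ R ^ 2 := by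
        rw [sq]; exact Nat.mul_le_mul (mem_filter.mp hS).2 (mem_filter.mp hT).2

lemma sum_ite_dvd {l : ℕ} (hl : 0 < l) (t : ℤ) (c : ℝ) :
    ∑ z ∈ range l, (if (l : ℤ) ∣ (z : ℤ) + t then c else 0) = c := by
  have hl0 : (0 : ℤ) < l := by exact_mod_cast hl
  have h1 := Int.emod_nonneg (-t) hl0.ne'
  have h2 := Int.emod_lt_of_pos (-t) hl0
  have h3 : (((-t % l).toNat : ℕ) : ℤ) = -t % l := Int.toNat_of_nonneg h1
  have h4 : (l : ℤ) ∣ -t % l + t := by
    have := Int.emod_emod_of_dvd (-t) (dvd_refl (l : ℤ))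
    have h5 : -t % l ≡ -t [ZMOD l] := this
    simpa using h5.symm.dvd
  rw [sum_eq_single_of_mem (-t % l).toNat (by rw [mem_range]; omega), h3, if_pos h4]
  intro z hz hne
  rw [if_neg]
  intro hd
  have h5 : (l : ℤ) ∣ (z : ℤ) - -t % l := by
    have := dvd_sub hd h4
    simpa using this
  have hz' : (z : ℤ) < l := by exact_mod_cast mem_range.mp hz
  have := Int.eq_zero_of_abs_lt_dvd h5 (by rw [abs_lt]; constructor <;> omega)
  omega

lemma ps_eq {l : ℕ} (n : ℤ) : ps l n = uu l - if (l : ℤ) ∣ n then 1 + uu l else 0 := by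
  unfold ps
  split_ifs <;> ring

lemma abs_ps_le {l : ℕ} (hl : l.Prime) (n : ℤ) : |ps l n| ≤ 1 := by
  unfold ps
  split_ifs
  · simp
  · rw [abs_of_pos (uu_pos hl)]; exact uu_le_one hl

lemma sum_ps {l : ℕ} (hl : l.Prime) (t : ℤ) : ∑ z ∈ range l, ps l (z + t) = 0 := by
  simp only [ps_eq]
  rw [sum_sub_distrib, sum_ite_dvd hl.pos, sum_const, card_range, nsmul_eq_mul, mul_uu hl, sub_self]

lemma sum_ps_mul {l : ℕ} (hl : l.Prime) (t t' : ℤ) :
    ∑ z ∈ range l, ps l (z + t) * ps l (z + t') = l * rho l (t - t') := by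
  have h : ∀ z : ℕ, ps l (z + t) * ps l (z + t') = uu l * ps l (z + t') -
      if (l : ℤ) ∣ (z : ℤ) + t then (1 + uu l) * ps l (t - t') else 0 := by
    intro z
    rw [ps_eq (z + t)]
    split_ifs with hd
    · have : ps l (z + t') = ps l (t - t') := by
        unfold ps
        have : (l : ℤ) ∣ z + t' ↔ (l : ℤ) ∣ t - t' := by
          constructor
          · intro h; have := dvd_sub hd h; simpa using this
          · intro h; have := dvd_sub hd h
            have e : (z : ℤ) + t - (t - t') = z + t' := by ring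
            rwa [e] at this
        simp only [this]
      rw [this]; ring
    · ring
  simp only [h]
  rw [sum_sub_distrib, ← mul_sum, sum_ps hl, sum_ite_dvd hl.pos, ← mul_uu hl]
  unfold ps rho
  split_ifs <;> ring

lemma ps_congr {l : ℕ} {s s' : ℤ} (h : s ≡ s' [ZMOD l]) (t : ℤ) : ps l (s + t) = ps l (s' + t) := by
  unfold ps
  have : (l : ℤ) ∣ s + t ↔ (l : ℤ) ∣ s' + t := (h.add_right t).dvd_iff
  simp only [this]

lemma ortho (hP : ∀ l ∈ P, l.Prime) {U W : Finset ℕ} (hU : U ⊆ P) (hW : W ⊆ P) (t t' y : ℤ)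
    (N : ℕ) :
    |∑ s ∈ Ioc y (y + N), (∏ l ∈ U, ps l (s + t)) * ∏ l ∈ W, ps l (s + t')
      - N * if U = W then ∏ l ∈ U, rho l (t - t') else 0|
      ≤ ((∏ l ∈ U, l : ℕ) : ℝ) * ((∏ l ∈ W, l : ℕ) : ℝ) := by
  have hV : ∀ l ∈ U ∪ W, l.Prime := fun l hl => hP l (union_subset hU hW hl)
  have h := sum_prod_periodic
    (fun l s => (if l ∈ U then ps l (s + t) else 1) * (if l ∈ W then ps l (s + t') else 1))
    (fun l s s' hs => by simp only [ps_congr hs]) y N (U ∪ W) hV
  have e1 : ∀ s : ℤ, ∏ l ∈ U ∪ W,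
      ((if l ∈ U then ps l (s + t) else 1) * (if l ∈ W then ps l (s + t') else 1))
      = (∏ l ∈ U, ps l (s + t)) * ∏ l ∈ W, ps l (s + t') := by
    intro s
    rw [prod_mul_distrib, ← prod_eq_prod_ite subset_union_left,
      ← prod_eq_prod_ite subset_union_right]
  have e2 : ∏ l ∈ U ∪ W, ((∑ z ∈ range l,
      (if l ∈ U then ps l (z + t) else 1) * (if l ∈ W then ps l (z + t') else 1)) / l)
      = if U = W then ∏ l ∈ U, rho l (t - t') else 0 := by
    split_ifs with hUW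
    · subst hUW
      rw [union_self]
      refine prod_congr rfl fun l hl => ?_
      have : (l : ℝ) ≠ 0 := by exact_mod_cast (hP l (hU hl)).ne_zero
      simp only [if_pos hl]
      rw [sum_ps_mul (hP l (hU hl))]; field_simp
    · have : ∃ l, ¬ (l ∈ U ↔ l ∈ W) := by
        by_contra hcon
        push Not at hcon
        exact hUW (Finset.ext hcon)
      obtain ⟨l, hl⟩ := this
      have hlV : l ∈ U ∪ W := by rw [mem_union]; tauto
      refine prod_eq_zero hlV ?_
      by_cases h1 : l ∈ U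
      · have h2 : l ∉ W := by tauto
        simp only [if_pos h1, if_neg h2, mul_one]
        rw [sum_ps (hV l hlV), zero_div]
      · have h2 : l ∈ W := by tauto
        simp only [if_neg h1, if_pos h2, one_mul]
        rw [sum_ps (hV l hlV), zero_div]
  simp only [e1, e2] at h
  refine h.trans ?_
  calc _ ≤ ∏ l ∈ U ∪ W, (l : ℝ) := by
        refine prod_le_prod (fun l _ => sum_nonneg fun z _ => abs_nonneg _) fun l hl => ?_
        calc _ ≤ ∑ z ∈ range l, (1 : ℝ) := by
              refine sum_le_sum fun z _ => ?_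
              rw [abs_mul]
              have h1 := abs_ps_le (hV l hl) (z + t)
              have h2 := abs_ps_le (hV l hl) (z + t')
              refine mul_le_one₀ ?_ (abs_nonneg _) ?_ <;> split_ifs <;> simp [h1, h2]
          _ = l := by simp
    _ ≤ _ := by
        rw [← Nat.cast_prod]
        exact_mod_cast prod_union_le hP hU

lemma nu_sub (hP : ∀ l ∈ P, l.Prime) (hR : 1 ≤ R) (n : ℤ) :
    nu P R n - 1 / gg P R
      = (∑ U ∈ P.powerset.erase ∅, beta P R U * ∏ l ∈ U, ps l n) / gg P R ^ 2 := by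
  have h := one_le_gg hP hR
  have h0 : gg P R ≠ 0 := by linarith
  rw [nu, div_pow, sig_sq, ← add_sum_erase _ _ (empty_mem_powerset P), beta_empty, prod_empty]
  field_simp; ring

/-- Variance bound. -/
theorem variance (hP : ∀ l ∈ P, l.Prime) (hR : 1 ≤ R) (T : Finset ℤ) (y : ℤ) (N : ℕ) :
    ∑ s ∈ Ioc y (y + N), (∑ t ∈ T, nu P R (s + t) - T.card / gg P R) ^ 2 ≤
      N * mert P ^ 2 * ∑ U ∈ P.powerset.erase ∅,
        9 ^ U.card * |∑ t ∈ T, ∑ t' ∈ T, ∏ l ∈ U, rho l (t - t')|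
      + (T.card : ℝ) ^ 2 * (R : ℝ) ^ 8 := by
  have hg := one_le_gg hP hR
  set E := P.powerset.erase ∅ with hE
  have hEP : ∀ U ∈ E, U ⊆ P := fun U hU => mem_powerset.mp (mem_of_mem_erase hU)
  set A : ℤ → ℝ := fun s => ∑ U ∈ E, ∑ t ∈ T, beta P R U * ∏ l ∈ U, ps l (s + t) with hA
  have h1 : ∀ s : ℤ, (∑ t ∈ T, nu P R (s + t) - T.card / gg P R) ^ 2 ≤ A s ^ 2 := by
    intro s
    have e : ∑ t ∈ T, nu P R (s + t) - T.card / gg P R = A s / gg P R ^ 2 := by
      rw [hA]
      simp only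
      rw [sum_comm, sum_div, ← sum_congr rfl fun t _ => nu_sub hP hR (s + t), sum_sub_distrib,
        sum_const, nsmul_eq_mul, mul_one_div]
    rw [e, div_pow]
    exact div_le_self (sq_nonneg _) (one_le_pow₀ (one_le_pow₀ hg))
  refine (sum_le_sum fun s _ => h1 s).trans ?_
  have h2 : ∑ s ∈ Ioc y (y + N), A s ^ 2 = ∑ U ∈ E, ∑ W ∈ E, ∑ t ∈ T, ∑ t' ∈ T,
      beta P R U * beta P R W *
        ∑ s ∈ Ioc y (y + N), (∏ l ∈ U, ps l (s + t)) * ∏ l ∈ W, ps l (s + t') := by
    have e0 : ∀ s, A s ^ 2 = ∑ U ∈ E, ∑ W ∈ E, ∑ t ∈ T, ∑ t' ∈ T, beta P R U * beta P R W *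
        ((∏ l ∈ U, ps l (s + t)) * ∏ l ∈ W, ps l (s + t')) := by
      intro s
      rw [sq, hA, sum_mul_sum]
      refine sum_congr rfl fun U _ => sum_congr rfl fun W _ => ?_
      rw [sum_mul_sum]
      refine sum_congr rfl fun t _ => sum_congr rfl fun t' _ => by ring
    simp only [e0, mul_sum]
    rw [sum_comm]
    refine sum_congr rfl fun U _ => ?_
    rw [sum_comm]
    refine sum_congr rfl fun W _ => ?_
    rw [sum_comm]
    refine sum_congr rfl fun t _ => ?_
    rw [sum_comm]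
  have h3 : ∀ U ∈ E, ∀ W ∈ E, ∀ t t' : ℤ, beta P R U * beta P R W *
        ∑ s ∈ Ioc y (y + N), (∏ l ∈ U, ps l (s + t)) * ∏ l ∈ W, ps l (s + t') ≤
      (if U = W then N * beta P R U ^ 2 * ∏ l ∈ U, rho l (t - t') else 0)
        + |beta P R U| * |beta P R W| * (R : ℝ) ^ 4 := by
    intro U hU W hW t t'
    have h4 := ortho hP (hEP U hU) (hEP W hW) t t' y N
    set X := ∑ s ∈ Ioc y (y + N), (∏ l ∈ U, ps l (s + t)) * ∏ l ∈ W, ps l (s + t')
    set Y := (N : ℝ) * if U = W then ∏ l ∈ U, rho l (t - t') else 0 with hY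
    have e : (if U = W then N * beta P R U ^ 2 * ∏ l ∈ U, rho l (t - t') else 0)
        = beta P R U * beta P R W * Y := by
      rw [hY]
      split_ifs with h
      · subst h; ring
      · ring
    rw [e, ← sub_le_iff_le_add', ← mul_sub]
    refine (le_abs_self _).trans ?_
    rw [abs_mul, abs_mul]
    by_cases hU0 : beta P R U = 0
    · simp [hU0]
    by_cases hW0 : beta P R W = 0
    · simp [hW0]
    refine mul_le_mul_of_nonneg_left (h4.trans ?_) (by positivity)
    have h5 : ((∏ l ∈ U, l : ℕ) : ℝ) ≤ (R : ℝ) ^ 2 := by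
      exact_mod_cast prod_le_of_beta_ne hP hU0
    have h6 : ((∏ l ∈ W, l : ℕ) : ℝ) ≤ (R : ℝ) ^ 2 := by
      exact_mod_cast prod_le_of_beta_ne hP hW0
    calc _ ≤ (R : ℝ) ^ 2 * (R : ℝ) ^ 2 := by gcongr
      _ = _ := by ring
  rw [h2]
  refine (sum_le_sum fun U hU => sum_le_sum fun W hW => sum_le_sum fun t _ =>
    sum_le_sum fun t' _ => h3 U hU W hW t t').trans ?_
  simp only [sum_add_distrib]
  refine add_le_add ?_ ?_
  · rw [mul_sum]
    refine sum_le_sum fun U hU => ?_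
    rw [sum_eq_single_of_mem U hU (fun W _ hne => by simp [hne.symm])]
    simp only [if_true, ← mul_sum]
    have h7 : beta P R U ^ 2 ≤ 9 ^ U.card * mert P ^ 2 := by
      have h8 := abs_beta_le (R := R) hP (hEP U hU)
      rw [← sq_abs]
      calc _ ≤ (3 ^ U.card * mert P) ^ 2 := by gcongr
        _ = _ := by rw [mul_pow, ← pow_mul, mul_comm U.card, pow_mul]; norm_num
    calc _ ≤ N * beta P R U ^ 2 * |∑ t ∈ T, ∑ t' ∈ T, ∏ l ∈ U, rho l (t - t')| := by
          gcongr; exact le_abs_self _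
      _ ≤ N * (9 ^ U.card * mert P ^ 2) * |∑ t ∈ T, ∑ t' ∈ T, ∏ l ∈ U, rho l (t - t')| := by
          gcongr
      _ = _ := by ring
  · simp only [sum_const, nsmul_eq_mul]
    have h8 : ∑ U ∈ E, |beta P R U| ≤ (R : ℝ) ^ 2 :=
      (sum_le_sum_of_subset_of_nonneg (erase_subset _ _) fun _ _ _ => abs_nonneg _).trans
        (sum_abs_beta_le hP)
    have h9 : 0 ≤ ∑ U ∈ E, |beta P R U| := sum_nonneg fun _ _ => abs_nonneg _
    calc _ = (T.card : ℝ) ^ 2 * (R : ℝ) ^ 4 *
          ((∑ U ∈ E, |beta P R U|) * ∑ W ∈ E, |beta P R W|) := by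
          rw [sum_mul_sum, mul_sum]
          refine sum_congr rfl fun U _ => ?_
          rw [mul_sum]
          refine sum_congr rfl fun W _ => by ring
      _ ≤ (T.card : ℝ) ^ 2 * (R : ℝ) ^ 4 * ((R : ℝ) ^ 2 * (R : ℝ) ^ 2) := by gcongr
      _ = _ := by ring

end Pool.Agent.Lib.MP_778b46_nt
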