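import Pool.Agent.Lib.MP_778b46_nt.Apps

/-!
Iterated prime-indexed primes: counting function and close pairs.
-/

open Finset Real Filter
open scoped Nat.Prime

namespace Pool.Agent.Lib.MP_778b46_nt

lemma ev_log_pow_le_sqrt (k : ℕ) (c : ℝ) : ∀ᶠ x : ℝ in atTop, c * log x ^ k ≤ √x := by
  have h := (isLittleO_pow_log_id_atTop (n := 2 * k)).bound (c := 1 / (c ^ 2 + 1)) (by positivity)
  filter_upwards [h, eventually_ge_atTop 1] with x hx h1
  apply le_sqrt_of_sq_le
  have h0 := log_nonneg h1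
  rw [Real.norm_of_nonneg (by positivity), id, Real.norm_of_nonneg (by linarith), one_div,
    ← div_eq_inv_mul, le_div_iff₀ (by positivity)] at hx
  have e : (c * log x ^ k) ^ 2 = log x ^ (2 * k) * c ^ 2 := by ring
  have : 0 ≤ log x ^ (2 * k) := by positivity
  nlinarith

lemma tendsto_log_nat : Tendsto (fun X : ℕ => log (X : ℝ)) atTop atTop :=
  tendsto_log_atTop.comp tendsto_natCast_atTop_atTop

lemma ev_log_pow_le_sqrt_nat (k : ℕ) (c : ℝ) : ∀ᶠ X : ℕ in atTop, c * log X ^ k ≤ √(X : ℝ) :=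
  tendsto_natCast_atTop_atTop.eventually (ev_log_pow_le_sqrt k c)

lemma root_facts {X : ℕ} (hX : 2 ^ 16 ≤ X) :
    2 ≤ Nat.nthRoot 16 X ∧ ((Nat.nthRoot 16 X : ℕ) : ℝ) ^ 8 ≤ √(X : ℝ) ∧
      log X ≤ 16 * log ((Nat.nthRoot 16 X : ℕ) + 1) ∧ log ((Nat.nthRoot 16 X : ℕ) + 1) ≤ log X := by
  set R := Nat.nthRoot 16 X with hR
  have h1 : 2 ≤ R := (Nat.le_nthRoot_iff (by norm_num)).mpr hX
  have h2 : R ^ 16 ≤ X := Nat.pow_nthRoot_le_iff.mpr (Or.inl (by norm_num))
  have h3 : X < (R + 1) ^ 16 := Nat.lt_pow_nthRoot_add_one (by norm_num) X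
  have h2' : (R : ℝ) ^ 16 ≤ X := by exact_mod_cast h2
  have h3' : (X : ℝ) ≤ (R + 1) ^ 16 := by exact_mod_cast h3.le
  have hX0 : (0 : ℝ) < X := by
    have : 0 < X := lt_of_lt_of_le (by norm_num) hX
    exact_mod_cast this
  refine ⟨h1, le_sqrt_of_sq_le (by rw [← pow_mul]; exact h2'), ?_, ?_⟩
  · have := log_le_log hX0 h3'
    rw [log_pow] at this
    exact_mod_cast this
  · apply log_le_log (by positivity)
    have h4 : R + 1 ≤ R ^ 16 := by
      calc R + 1 ≤ R ^ 2 := by nlinarith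
        _ ≤ R ^ 16 := Nat.pow_le_pow_right (by omega) (by norm_num)
    exact_mod_cast h4.trans h2

lemma ev_exceptional (A : ℕ) : ∀ᶠ X : ℕ in atTop, ∀ H : ℕ, log X ^ (A + 23) ≤ H →
    (((Ioc 0 X).filter fun x => 32 * H / log X <
      (((Ioc x (x + H)).filter Nat.Prime).card : ℝ)).card : ℝ) ≤ X / log X ^ A := by
  obtain ⟨C, hC1, hC⟩ := mert_le
  filter_upwards [eventually_ge_atTop (2 ^ 16), ev_log_pow_le_sqrt_nat (A + 2) 4,
    tendsto_log_nat.eventually_ge_atTop 1, tendsto_log_nat.eventually_ge_atTop (2 * C ^ 20)]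
    with X hX hs hL1 hLC H hH
  obtain ⟨h1, h2, h3, h4⟩ := root_facts hX
  set R := Nat.nthRoot 16 X with hR
  set L := log (X : ℝ) with hL
  have hR' : (2 : ℝ) ≤ R := by exact_mod_cast h1
  have hL0 : 0 < L := by linarith
  have hH1 : (1 : ℝ) ≤ H := (one_le_pow₀ hL1).trans hH
  have hl : 0 < log ((R : ℝ) + 1) := log_pos (by linarith)
  have h5 := exceptional X R H (by omega) (by exact_mod_cast hH1)
  have hsub : ((Ioc 0 X).filter fun x => 32 * H / L <
      (((Ioc x (x + H)).filter Nat.Prime).card : ℝ)) ⊆ ((Ioc 0 X).filter fun x =>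
        2 * H / log (R + 1) < (((Ioc x (x + H)).filter Nat.Prime).card : ℝ)) := by
    intro x hx
    obtain ⟨hx1, hx2⟩ := mem_filter.mp hx
    refine mem_filter.mpr ⟨hx1, lt_of_le_of_lt ?_ hx2⟩
    rw [div_le_div_iff₀ hl hL0]
    nlinarith
  refine le_trans (by exact_mod_cast card_le_card hsub) (h5.trans ?_)
  have hm : mert (Nat.primesLE R) ≤ C * L := by
    refine (hC R h1 _ Subset.rfl).trans ?_
    have : log R ≤ L := (log_le_log (by linarith) (by linarith)).trans h4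
    gcongr
  have hm0 : 0 ≤ mert (Nat.primesLE R) :=
    zero_le_one.trans (one_le_mert fun l hl => Nat.prime_of_mem_primesLE hl)
  have h6 : (R : ℝ) ≤ √X * L ^ 2 := by
    calc (R : ℝ) ≤ (R : ℝ) ^ 8 := le_self_pow₀ (by linarith) (by norm_num)
      _ ≤ √X * 1 := by rw [mul_one]; exact h2
      _ ≤ √X * L ^ 2 := by gcongr; exact one_le_pow₀ hL1
  have hsq : √(X : ℝ) * √X = X := mul_self_sqrt (Nat.cast_nonneg X)
  have h7 : 2 * (√X * L ^ 2) ≤ X / L ^ A / 2 := by
    rw [div_div, le_div_iff₀ (by positivity)]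
    calc 2 * (√X * L ^ 2) * (L ^ A * 2) = √X * (4 * L ^ (A + 2)) := by ring
      _ ≤ √X * √X := by gcongr
      _ = X := hsq
  have h8 : X * (C * L) ^ 20 / L ^ (A + 23) * L ^ 2 ≤ X / L ^ A / 2 := by
    have e : X * (C * L) ^ 20 / L ^ (A + 23) * L ^ 2 = X / L ^ A * (C ^ 20 / L) := by
      field_simp
      ring
    have : C ^ 20 / L ≤ 1 / 2 := by rw [div_le_iff₀ hL0]; linarith
    rw [e]
    calc _ ≤ X / L ^ A * (1 / 2) := by gcongr
      _ = _ := by ring
  calc _ ≤ √X * L ^ 2 + (X * (C * L) ^ 20 / L ^ (A + 23) + √X) * L ^ 2 := by gcongr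
    _ = 2 * (√X * L ^ 2) + X * (C * L) ^ 20 / L ^ (A + 23) * L ^ 2 := by ring
    _ ≤ _ := by linarith

/-- The `k`-th prime, counted from `1`. -/
noncomputable def pp (k : ℕ) : ℕ := Nat.nth Nat.Prime (k - 1)

/-- Values of the `k`-fold iterate of `pp` on positive integers. -/
def IsIt (k n : ℕ) : Prop := ∃ x, 0 < x ∧ pp^[k] x = n

open Classical in
/-- The elements of `IsIt k` up to `X`. -/
noncomputable def itLE (k X : ℕ) : Finset ℕ := (Ioc 0 X).filter (IsIt k)

/-- Close pairs. -/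
noncomputable def prs (k X H : ℕ) : Finset (ℕ × ℕ) :=
  (itLE k X ×ˢ itLE k X).filter fun q => q.1 < q.2 ∧ q.2 ≤ q.1 + H

lemma pp_prime (m : ℕ) : (pp m).Prime := Nat.prime_nth_prime _

lemma isIt_succ {k n : ℕ} : IsIt (k + 1) n ↔ ∃ m, IsIt k m ∧ pp m = n := by
  simp only [IsIt, Function.iterate_succ_apply']
  constructor
  · rintro ⟨x, hx, rfl⟩; exact ⟨_, ⟨x, hx, rfl⟩, rfl⟩
  · rintro ⟨m, ⟨x, hx, rfl⟩, rfl⟩; exact ⟨x, hx, rfl⟩

lemma IsIt.prime {k n : ℕ} (h : IsIt (k + 1) n) : n.Prime := by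
  obtain ⟨m, _, rfl⟩ := isIt_succ.mp h
  exact pp_prime m

lemma IsIt.pos {k n : ℕ} (h : IsIt k n) : 0 < n := by
  cases k with
  | zero => obtain ⟨x, hx, rfl⟩ := h; exact hx
  | succ k => exact h.prime.pos

lemma pp_le_iff {m X : ℕ} (hm : 0 < m) : pp m ≤ X ↔ m ≤ π X := by
  have h : Nat.count Nat.Prime (X + 1) ≤ m - 1 ↔ X + 1 ≤ Nat.nth Nat.Prime (m - 1) :=
    Nat.count_le_iff_le_nth Nat.infinite_setOfPred_prime
  have e : π X = Nat.count Nat.Prime (X + 1) := rfl
  unfold pp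
  omega

lemma pi_pp {m : ℕ} (hm : 0 < m) : π (pp m) = m := by
  have h : Nat.count Nat.Prime (Nat.nth Nat.Prime (m - 1) + 1) = m - 1 + 1 :=
    Nat.count_nth_succ_of_infinite Nat.infinite_setOfPred_prime (m - 1)
  have e : π (pp m) = Nat.count Nat.Prime (Nat.nth Nat.Prime (m - 1) + 1) := rfl
  omega

lemma pp_lt_iff {m n : ℕ} (hm : 0 < m) (hn : 0 < n) : pp m < pp n ↔ m < n := by
  unfold pp
  rw [Nat.nth_lt_nth Nat.infinite_setOfPred_prime]; omega

lemma mem_itLE {k X n : ℕ} : n ∈ itLE k X ↔ n ≤ X ∧ IsIt k n := by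
  classical
  rw [itLE, mem_filter, mem_Ioc]
  exact ⟨fun h => ⟨h.1.2, h.2⟩, fun h => ⟨⟨h.2.pos, h.1⟩, h.2⟩⟩

lemma itLE_subset (k X : ℕ) : itLE k X ⊆ Ioc 0 X := fun _ h =>
  mem_Ioc.mpr ⟨(mem_itLE.mp h).2.pos, (mem_itLE.mp h).1⟩

lemma mem_itLE_succ {k X n : ℕ} : n ∈ itLE (k + 1) X ↔ ∃ m ∈ itLE k (π X), pp m = n := by
  simp only [mem_itLE, isIt_succ]
  constructor
  · rintro ⟨h, m, hm, rfl⟩; exact ⟨m, ⟨(pp_le_iff hm.pos).mp h, hm⟩, rfl⟩
  · rintro ⟨m, ⟨h, hm⟩, rfl⟩; exact ⟨(pp_le_iff hm.pos).mpr h, m, hm, rfl⟩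

lemma card_itLE_succ (k X : ℕ) : (itLE (k + 1) X).card = (itLE k (π X)).card := by
  have : itLE (k + 1) X = (itLE k (π X)).image pp := by
    ext n; rw [mem_itLE_succ, mem_image]
  rw [this, card_image_of_injOn]
  intro a ha b hb h
  rw [← pi_pp (mem_itLE.mp ha).2.pos, ← pi_pp (mem_itLE.mp hb).2.pos, h]

lemma ev_pi : ∀ᶠ X : ℕ in atTop, X / (2 * log X) ≤ π X ∧ π X ≤ 2 * X / log X ∧
    log X / 2 ≤ log (π X) ∧ log (π X) ≤ log X ∧ 1 ≤ log X := by
  have h1 := tendsto_natCast_atTop_atTop.eventually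
    (Chebyshev.eventually_primeCounting_le (ε := 1 / 2) (by norm_num))
  filter_upwards [h1, ev_log_pow_le_sqrt_nat 1 20, tendsto_log_nat.eventually_ge_atTop 1,
    eventually_ge_atTop 2] with X hX hs hL h2
  rw [Nat.floor_natCast] at hX
  have hX2 : (2 : ℝ) ≤ X := by exact_mod_cast h2
  have hL0 : 0 < log (X : ℝ) := by linarith
  have hsq : √(X : ℝ) * √X = X := mul_self_sqrt (Nat.cast_nonneg X)
  have hs1 : 1 ≤ √(X : ℝ) := by rw [pow_one] at hs; linarith
  have hl2 := log_two_gt_d9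
  have hl2' := log_two_lt_d9
  have hA : X / (2 * log X) ≤ π X := by
    refine le_trans ?_ (Chebyshev.pi_ge X)
    rw [← div_div]
    gcongr
    have h3 : log ((X : ℝ) + 1) ≤ 2 * log X := by
      rw [← Nat.cast_ofNat, ← log_pow]
      apply log_le_log (by linarith); nlinarith
    rw [pow_one] at hs
    nlinarith
  refine ⟨hA, hX.trans ?_, ?_, ?_, hL⟩
  · have : log 4 = 2 * log 2 := by
      rw [show (4 : ℝ) = 2 ^ 2 by norm_num, log_pow]; norm_num
    gcongr; linarith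
  · have h3 : √(X : ℝ) ≤ π X := by
      refine le_trans ?_ hA
      rw [le_div_iff₀ (by positivity)]
      rw [pow_one] at hs
      nlinarith
    rw [← log_sqrt (by linarith)]
    exact log_le_log (by linarith) h3
  · have h3 : π X ≤ X := by
      rw [← Nat.primesLE_card_eq_primeCounting, Nat.primesLE_eq_filter_Ioc_zero]
      simpa using card_filter_le (Ioc 0 X) Nat.Prime
    have h4 : (0 : ℝ) < π X := lt_of_lt_of_le (by positivity) hA
    exact log_le_log h4 (by exact_mod_cast h3)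

lemma card_itLE_ge (k : ℕ) : ∃ c : ℝ, 0 < c ∧ ∀ᶠ X : ℕ in atTop,
    c * X / log X ^ k ≤ (itLE k X).card := by
  induction k with
  | zero =>
    refine ⟨1, one_pos, Eventually.of_forall fun X => ?_⟩
    have : itLE 0 X = Ioc 0 X := by
      ext n
      rw [mem_itLE, mem_Ioc]
      exact ⟨fun h => ⟨h.2.pos, h.1⟩, fun h => ⟨h.2, n, h.1, rfl⟩⟩
    simp [this]
  | succ k ih =>
    obtain ⟨c, hc, h⟩ := ih
    refine ⟨c / 2, by positivity, ?_⟩
    filter_upwards [Nat.tendsto_primeCounting.eventually h, ev_pi] with X hX ⟨h1, _, h3, h4, h5⟩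
    rw [card_itLE_succ]
    refine le_trans ?_ hX
    have : 0 < log (π X : ℝ) := by linarith
    calc c / 2 * X / log X ^ (k + 1) = c * (X / (2 * log X)) / log X ^ k := by
          field_simp
          ring
      _ ≤ _ := by gcongr

lemma card_close_le (F : Finset (ℕ × ℕ)) (E : Finset ℕ) (H : ℕ)
    (h : ∀ q ∈ F, q.1 ∈ E ∧ q.1 < q.2 ∧ q.2 ≤ q.1 + H) : F.card ≤ E.card * H := by
  have : F ⊆ (E ×ˢ Ioc 0 H).image fun q => (q.1, q.1 + q.2) := by
    intro q hq
    obtain ⟨h1, h2, h3⟩ := h q hq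
    refine mem_image.mpr ⟨(q.1, q.2 - q.1), mem_product.mpr ⟨h1, ?_⟩, ?_⟩
    · rw [mem_Ioc]; simp only; omega
    · ext
      · rfl
      · simp only; omega
  exact (card_le_card this).trans (card_image_le.trans (by simp))

lemma pi_le_add {a b H : ℕ} (h : b ≤ a + H) :
    π b ≤ π a + ((Ioc a (a + H)).filter Nat.Prime).card := by
  rw [← Nat.primesLE_card_eq_primeCounting, ← Nat.primesLE_card_eq_primeCounting]
  refine le_trans (card_le_card ?_) (card_union_le _ _)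
  intro p hp
  obtain ⟨h1, h2⟩ := Nat.mem_primesLE.mp hp
  rw [mem_union, Nat.mem_primesLE, mem_filter, mem_Ioc]
  by_cases h3 : p ≤ a
  · exact Or.inl ⟨h3, h2⟩
  · exact Or.inr ⟨⟨by omega, by omega⟩, h2⟩

lemma card_prs_le (k : ℕ) : ∃ (C : ℝ) (D : ℕ), 0 < C ∧ ∀ᶠ X : ℕ in atTop, ∀ H : ℕ,
    log X ^ D ≤ H → ((prs k X H).card : ℝ) ≤ C * X * H / log X ^ (2 * k) := by
  induction k with
  | zero =>
    refine ⟨1, 0, one_pos, Eventually.of_forall fun X H _ => ?_⟩
    have := card_close_le (prs 0 X H) (Ioc 0 X) H fun q hq => by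
      obtain ⟨h1, h2⟩ := mem_filter.mp hq
      exact ⟨itLE_subset _ _ (mem_product.mp h1).1, h2⟩
    simp only [Nat.card_Ioc, tsub_zero] at this
    simp only [one_mul, mul_zero, pow_zero, div_one]
    exact_mod_cast this
  | succ k ih =>
    obtain ⟨C, D, hC, h⟩ := ih
    refine ⟨64 * 2 ^ (2 * k) * C + 1, D + 2 * k + 25, by positivity, ?_⟩
    filter_upwards [Nat.tendsto_primeCounting.eventually h, ev_pi, ev_exceptional (2 * k + 2)]
      with X hX ⟨h1, h2, h3, h4, h5⟩ hE H hH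
    set L := log (X : ℝ) with hL
    have hL0 : 0 < L := by linarith
    have hl : 0 < log (π X : ℝ) := by linarith
    set H' := ⌊32 * H / L⌋₊ with hH'
    have hH0 : (0 : ℝ) ≤ 32 * H / L := by positivity
    have hle : (H' : ℝ) ≤ 32 * H / L := Nat.floor_le hH0
    have hge : log (π X) ^ D ≤ H' := by
      have h6 := Nat.lt_floor_add_one (32 * H / L)
      have h7 : L ^ (D + 1) ≤ H := (pow_le_pow_right₀ h5 (by omega)).trans hH
      have h8 : 32 * L ^ D ≤ 32 * H / L := by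
        rw [le_div_iff₀ hL0]
        rw [pow_succ] at h7
        linarith
      have h9 : 1 ≤ L ^ D := one_le_pow₀ h5
      have h10 : log (π X) ^ D ≤ L ^ D := by gcongr
      linarith
    have hE' := hE H ((pow_le_pow_right₀ h5 (by omega)).trans hH)
    set E := (Ioc 0 X).filter fun x => 32 * H / L <
      (((Ioc x (x + H)).filter Nat.Prime).card : ℝ) with hEdef
    have hsub : prs (k + 1) X H ⊆ (prs k (π X) H').image (fun q => (pp q.1, pp q.2)) ∪
        (prs (k + 1) X H).filter fun q => q.1 ∈ E := by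
      intro q hq
      by_cases hqE : q.1 ∈ E
      · exact mem_union_right _ (mem_filter.mpr ⟨hq, hqE⟩)
      refine mem_union_left _ ?_
      obtain ⟨hq1, hq2, hq3⟩ := mem_filter.mp hq
      obtain ⟨ha, hb⟩ := mem_product.mp hq1
      have hmem : q.1 ∈ Ioc 0 X := itLE_subset _ _ ha
      obtain ⟨m, hm, hm'⟩ := mem_itLE_succ.mp ha
      obtain ⟨n, hn, hn'⟩ := mem_itLE_succ.mp hb
      have hm0 := (mem_itLE.mp hm).2.pos
      have hn0 := (mem_itLE.mp hn).2.pos
      refine mem_image.mpr ⟨(m, n), mem_filter.mpr ⟨mem_product.mpr ⟨hm, hn⟩, ?_, ?_⟩, ?_⟩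
      · exact (pp_lt_iff hm0 hn0).mp (by rwa [hm', hn'])
      · have h6 := pi_le_add hq3
        rw [← hn', pi_pp hn0] at h6
        nth_rewrite 1 [← hm'] at h6
        rw [pi_pp hm0] at h6
        have h7 : ((Ioc q.1 (q.1 + H)).filter Nat.Prime).card ≤ H' := by
          apply Nat.le_floor
          by_contra hcon
          exact hqE (mem_filter.mpr ⟨hmem, lt_of_not_ge hcon⟩)
        simp only; omega
      · simp only [hm', hn']
    have h6 : (prs (k + 1) X H).card ≤ (prs k (π X) H').card + E.card * H := by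
      refine (card_le_card hsub).trans ((card_union_le _ _).trans (add_le_add card_image_le ?_))
      refine card_close_le _ E H fun q hq => ?_
      obtain ⟨hq1, hq2⟩ := mem_filter.mp hq
      exact ⟨hq2, (mem_filter.mp hq1).2⟩
    have h7 : ((prs (k + 1) X H).card : ℝ) ≤ (prs k (π X) H').card + E.card * H := by
      exact_mod_cast h6
    calc _ ≤ C * (π X) * H' / log (π X) ^ (2 * k) + X / L ^ (2 * k + 2) * H := by
          refine h7.trans (add_le_add (hX H' hge) ?_)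
          gcongr
      _ ≤ C * (2 * X / L) * (32 * H / L) / (L / 2) ^ (2 * k) + X / L ^ (2 * k + 2) * H := by
          gcongr
      _ = _ := by
          rw [div_pow, show 2 * (k + 1) = 2 * k + 2 by ring]
          field_simp
          ring

end Pool.Agent.Lib.MP_778b46_nt
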