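import Pool.Agent.Lib.MP_778b46_nt.Iter

/-!
The lower bound for the number of sums of an `a`-prime and a `b`-prime.
-/

open Finset Real Filter
open scoped Nat.Prime

namespace Pool.Agent.Lib.MP_778b46_nt

/-- The small summands at scale `H`. -/
noncomputable def smallSet (k H : ℕ) : Finset ℕ := (itLE k H).filter (Nat.nthRoot 16 H < ·)

lemma local_sumset (b : ℕ) : ∃ c : ℝ, 0 < c ∧ ∀ᶠ H : ℕ in atTop, ∀ (y : ℕ) (T S : Finset ℕ),
    T ⊆ Ico y (y + H) → log H ^ (b + 14) ≤ T.card →
    (∀ a ∈ smallSet (b + 1) H, ∀ t ∈ T, a + t ∈ S) →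
    c * H / (log H ^ b * log (log H)) ≤ S.card := by
  obtain ⟨C, hC1, hC⟩ := mert_le
  obtain ⟨c, hc, hcard⟩ := card_itLE_ge (b + 1)
  refine ⟨c / (128 * C * (b + 7)), by positivity, ?_⟩
  filter_upwards [hcard, eventually_ge_atTop (2 ^ 16), ev_log_pow_le_sqrt_nat (b + 1) (2 / c),
    ev_log_pow_le_sqrt_nat (b + 2) (24 / c), tendsto_log_nat.eventually_ge_atTop 36,
    tendsto_log_nat.eventually_ge_atTop (48 * C ^ 11 / c),
    tendsto_log_nat.eventually_ge_atTop (3456 * C ^ 2 / c),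
    (tendsto_log_atTop.comp tendsto_log_nat).eventually_ge_atTop 1]
    with H hcard hH hs1 hs2 hl36 hl1 hl2 hll y T S hT hTc hS
  obtain ⟨h1, h2, h3, h4⟩ := root_facts hH
  simp only [Function.comp] at hll
  set R := Nat.nthRoot 16 H with hR
  set l := log (H : ℝ) with hl
  have hl0 : 0 < l := by linarith
  have hl1' : 1 ≤ l := by linarith
  have hR' : (2 : ℝ) ≤ R := by exact_mod_cast h1
  have hH1 : (1 : ℝ) ≤ H := by
    have : 1 ≤ H := le_trans (by norm_num) hH
    exact_mod_cast this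
  have hsq : √(H : ℝ) * √H = H := mul_self_sqrt (Nat.cast_nonneg H)
  have hs0 : 0 < √(H : ℝ) := sqrt_pos.mpr (by linarith)
  set w := ⌈l ^ (b + 6)⌉₊ with hw
  have hw1 : l ^ (b + 6) ≤ w := Nat.le_ceil _
  have hw2 : (w : ℝ) ≤ l ^ (b + 7) := by
    have := Nat.ceil_lt_add_one (a := l ^ (b + 6)) (by positivity)
    have h5 : 1 ≤ l ^ (b + 6) := one_le_pow₀ hl1'
    rw [pow_succ l (b + 6)]
    nlinarith
  have hw3 : 18 * (1 + l) ≤ w := by
    have : l ^ 2 ≤ l ^ (b + 6) := pow_le_pow_right₀ hl1' (by omega)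
    nlinarith
  have hw4 : 2 ≤ w := by
    have : (2 : ℝ) ≤ w := by linarith
    exact_mod_cast this
  set P := (Nat.primesLE R).filter (w < ·) with hPdef
  have hP : ∀ p ∈ P, p.Prime := fun p hp => Nat.prime_of_mem_primesLE (mem_filter.mp hp).1
  have hm : mert P ≤ C * l := by
    refine (hC R h1 _ (filter_subset _ _)).trans ?_
    have : log R ≤ l := (log_le_log (by linarith) (by linarith)).trans h4
    gcongr
  have hm1 := one_le_mert hP
  have hg1 := one_le_gg hP (R := R) (by omega)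
  have hg : l ≤ 16 * C * (b + 7) * log l * gg P R := by
    have h5 := log_le_gg_mul (Nat.primesLE w) P R (fun p hp => Nat.prime_of_mem_primesLE hp) hP
      fun p hp hpR => by
        by_cases h : p ≤ w
        · exact Or.inl (Nat.mem_primesLE.mpr ⟨h, hp⟩)
        · exact Or.inr (mem_filter.mpr ⟨Nat.mem_primesLE.mpr ⟨hpR, hp⟩, by omega⟩)
    have h6 : log w ≤ (b + 7) * log l := by
      have := log_le_log (by linarith) hw2
      rw [log_pow] at this
      exact_mod_cast this
    have h7 : mert (Nat.primesLE w) ≤ C * ((b + 7) * log l) :=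
      (hC w hw4 _ Subset.rfl).trans (by gcongr)
    calc l ≤ 16 * (gg P R * mert (Nat.primesLE w)) := by linarith
      _ ≤ 16 * (gg P R * (C * ((b + 7) * log l))) := by gcongr
      _ = _ := by ring
  set A := smallSet (b + 1) H with hA
  have hAc : c * H / (2 * l ^ (b + 1)) ≤ A.card := by
    have h5 : (itLE (b + 1) H).card ≤ A.card + R := by
      have : itLE (b + 1) H ⊆ A ∪ Ioc 0 R := by
        intro n hn
        rw [mem_union, hA, smallSet, mem_filter, mem_Ioc]
        have := (mem_itLE.mp hn).2.pos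
        by_cases h : n ≤ R
        · exact Or.inr ⟨this, h⟩
        · exact Or.inl ⟨hn, by omega⟩
      exact (card_le_card this).trans ((card_union_le _ _).trans (by simp))
    have h6 : ((itLE (b + 1) H).card : ℝ) ≤ A.card + R := by exact_mod_cast h5
    have h7 : (R : ℝ) ≤ c * H / (2 * l ^ (b + 1)) := by
      have h8 : (R : ℝ) ≤ √H := (le_self_pow₀ (by linarith) (by norm_num)).trans h2
      rw [le_div_iff₀ (by positivity)]
      rw [div_mul_eq_mul_div, div_le_iff₀ hc] at hs1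
      calc R * (2 * l ^ (b + 1)) ≤ √H * (√H * c) := by gcongr
        _ = c * H := by rw [← mul_assoc, hsq, mul_comm]
    have e : c * H / l ^ (b + 1) = 2 * (c * H / (2 * l ^ (b + 1))) := by field_simp
    linarith
  set T' := T.image fun t : ℕ => -(t : ℤ) with hT'
  have hT'c : T'.card = T.card := card_image_of_injective _ fun a b h => by simpa using h
  have hcA : (A.image fun t : ℕ => (t : ℤ)).card = A.card :=
    card_image_of_injective _ Nat.cast_injective
  have hcS : (S.image fun t : ℕ => (t : ℤ)).card = S.card :=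
    card_image_of_injective _ Nat.cast_injective
  set n : ℝ := (T.card : ℝ) with hn
  have hn0 : 0 < n := lt_of_lt_of_le (by positivity) hTc
  have hphi := phi_sparse hP (w := w) (by omega) (fun p hp => (mem_filter.mp hp).2) T' (H := H)
    (fun t ht t' ht' => by
      obtain ⟨u, hu, rfl⟩ := mem_image.mp ht
      obtain ⟨u', hu', rfl⟩ := mem_image.mp ht'
      have h5 := mem_Ico.mp (hT hu)
      have h6 := mem_Ico.mp (hT hu')
      have : |-(u : ℤ) - -(u' : ℤ)| ≤ (H : ℤ) := by rw [abs_le]; constructor <;> omega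
      exact_mod_cast this) hH1 hw3
  have hvar := variance hP (R := R) (by omega) T' y (2 * H)
  set V : ℝ := n ^ 2 * (2 * H * C ^ 11 / l ^ (b + 3) + 144 * H * C ^ 2 / l ^ (b + 3) + √H) with hV
  have hvar2 : ∑ s ∈ Ioc (y : ℤ) (y + (2 * H : ℕ)),
      (∑ t ∈ T', nu P R (s + t) - T'.card / gg P R) ^ 2 ≤ V := by
    refine hvar.trans ?_
    rw [hT'c] at hphi ⊢
    rw [← hn] at hphi ⊢
    have h5 : n * mert P ^ 9 ≤ n ^ 2 * ((C * l) ^ 9 / l ^ (b + 14)) := by
      calc n * mert P ^ 9 ≤ n * (C * l) ^ 9 := by gcongr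
        _ = n ^ 2 * ((C * l) ^ 9 / n) := by field_simp
        _ ≤ _ := by gcongr
    have h6 : 36 * (1 + l) / w ≤ 72 * l / l ^ (b + 6) := by
      exact div_le_div₀ (by positivity) (by linarith) (by positivity) hw1
    calc _ ≤ ((2 * H : ℕ) : ℝ) * (C * l) ^ 2 * (n ^ 2 * ((C * l) ^ 9 / l ^ (b + 14))
          + n ^ 2 * (72 * l / l ^ (b + 6))) + n ^ 2 * √H := by
          gcongr ?_ + ?_
          · refine mul_le_mul (by gcongr) (hphi.trans ?_)
              (sum_nonneg fun _ _ => by positivity) (by positivity)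
            gcongr
          · gcongr
      _ = V := by
          rw [hV]; push_cast; field_simp; ring
  set μ : ℝ := 16 * C * (b + 7) * log l / l with hμ
  have hμ1 : 1 / l ≤ μ := by
    rw [hμ]
    gcongr
    have h5 : (1 : ℝ) ≤ b + 7 := by have : (0 : ℝ) ≤ b := Nat.cast_nonneg b; linarith
    exact one_le_mul_of_one_le_of_one_le (one_le_mul_of_one_le_of_one_le (by linarith) h5) hll
  have hμ0 : 0 < μ := lt_of_lt_of_le (by positivity) hμ1
  have hkey := sumset_le hP (R := R) (by omega) (A.image fun t : ℕ => (t : ℤ)) T'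
    (S.image fun t : ℕ => (t : ℤ)) y (2 * H)
    (fun a ha p hp hd => by
      obtain ⟨u, hu, rfl⟩ := mem_image.mp ha
      obtain ⟨hu1, hu2⟩ := mem_filter.mp hu
      rw [Int.natCast_dvd_natCast,
        Nat.prime_dvd_prime_iff_eq (hP p hp) (mem_itLE.mp hu1).2.prime] at hd
      have := Nat.le_of_mem_primesLE (mem_filter.mp hp).1
      omega)
    (fun a ha t ht => by
      obtain ⟨u, hu, rfl⟩ := mem_image.mp ha
      obtain ⟨v, hv, rfl⟩ := mem_image.mp ht
      exact mem_image.mpr ⟨u + v, hS u hu v hv, by push_cast; ring⟩)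
    (fun a ha t ht => by
      obtain ⟨u, hu, rfl⟩ := mem_image.mp ha
      obtain ⟨v, hv, rfl⟩ := mem_image.mp ht
      have h5 := mem_Ioc.mp (itLE_subset _ _ (mem_filter.mp hu).1)
      have h6 := mem_Ico.mp (hT hv)
      rw [mem_Ioc]; push_cast; omega)
    (m := n * μ) (V := V) (by positivity)
    (by
      rw [hT'c, ← hn, div_eq_mul_one_div]
      gcongr
      rw [hμ, div_le_div_iff₀ (by linarith) hl0]
      linarith) hvar2
  rw [hcA, hcS, hT'c, ← hn] at hkey
  have hVm : 2 * V / (n * μ) ≤ n * (c * H / (4 * l ^ (b + 1))) := by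
    have h5 : 2 * H * C ^ 11 / l ^ (b + 3) ≤ c * H / (24 * l ^ (b + 2)) := by
      rw [div_le_iff₀ hc] at hl1
      rw [div_le_div_iff₀ (by positivity) (by positivity)]
      calc _ = H * l ^ (b + 2) * (48 * C ^ 11) := by ring
        _ ≤ H * l ^ (b + 2) * (l * c) := by gcongr
        _ = _ := by ring
    have h6 : 144 * H * C ^ 2 / l ^ (b + 3) ≤ c * H / (24 * l ^ (b + 2)) := by
      rw [div_le_iff₀ hc] at hl2
      rw [div_le_div_iff₀ (by positivity) (by positivity)]
      calc _ = H * l ^ (b + 2) * (3456 * C ^ 2) := by ring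
        _ ≤ H * l ^ (b + 2) * (l * c) := by gcongr
        _ = _ := by ring
    have h7 : √H ≤ c * H / (24 * l ^ (b + 2)) := by
      rw [div_mul_eq_mul_div, div_le_iff₀ hc] at hs2
      rw [le_div_iff₀ (by positivity)]
      calc _ ≤ √H * (√H * c) := by gcongr
        _ = c * H := by rw [← mul_assoc, hsq, mul_comm]
    calc 2 * V / (n * μ) ≤ 2 * (n ^ 2 * (3 * (c * H / (24 * l ^ (b + 2))))) / (n * (1 / l)) := by
          rw [hV]
          gcongr
          linarith
      _ = _ := by field_simp; ring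
  have h8 : c * H / (4 * l ^ (b + 1)) ≤ 2 * μ * S.card := by
    have h9 : c * H / (2 * l ^ (b + 1)) * n ≤ A.card * n := by gcongr
    have e : c * H / (2 * l ^ (b + 1)) = 2 * (c * H / (4 * l ^ (b + 1))) := by field_simp; ring
    have h10 : n * (c * H / (4 * l ^ (b + 1))) ≤ n * (2 * μ * S.card) := by
      rw [e] at h9; nlinarith
    exact le_of_mul_le_mul_left h10 hn0
  rw [← div_le_iff₀' (by positivity)] at h8
  refine le_trans (le_of_eq ?_) h8
  rw [hμ]
  have : log l ≠ 0 := by linarith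
  field_simp
  ring

lemma good_blocks (B : Finset ℕ) (X H : ℕ) (hH : 0 < H) (hB : ∀ y ∈ B, y ≤ X) (n0 β Z : ℝ)
    (hβ : 0 < β) (hBβ : β ≤ B.card) (hn0 : 0 ≤ n0) (hbad : n0 * (X / H + 1) ≤ β / 2)
    (hZ : (((B ×ˢ B).filter fun q => q.1 < q.2 ∧ q.2 ≤ q.1 + H).card : ℝ) ≤ Z) :
    β ^ 2 / (4 * (β + 2 * Z)) ≤
      (((range (X / H + 1)).filter fun j => n0 ≤ ((B.filter (· / H = j)).card : ℝ)).card : ℝ) := by
  set J := range (X / H + 1) with hJ
  set n : ℕ → ℝ := fun j => ((B.filter (· / H = j)).card : ℝ) with hn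
  set G := J.filter fun j => n0 ≤ n j with hG
  set F := (B ×ˢ B).filter fun q => q.1 < q.2 ∧ q.2 ≤ q.1 + H with hF
  have hZ0 : 0 ≤ Z := le_trans (Nat.cast_nonneg _) hZ
  have hmaps : ∀ y ∈ B, y / H ∈ J := fun y hy =>
    mem_range.mpr (Nat.lt_succ_of_le (Nat.div_le_div_right (hB y hy)))
  have h1 : (B.card : ℝ) = ∑ j ∈ J, n j := by
    rw [card_eq_sum_card_fiberwise (f := (· / H)) (t := J) hmaps]; simp [hn]
  have h2 : ∑ j ∈ J.filter (fun j => ¬ n0 ≤ n j), n j ≤ β / 2 := by
    refine le_trans ?_ hbad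
    calc _ ≤ ∑ j ∈ J.filter (fun j => ¬ n0 ≤ n j), n0 :=
          sum_le_sum fun j hj => (not_le.mp (mem_filter.mp hj).2).le
      _ ≤ ∑ j ∈ J, n0 := sum_le_sum_of_subset_of_nonneg (filter_subset _ _) fun _ _ _ => hn0
      _ = n0 * ((X / H : ℕ) + 1) := by simp [hJ, mul_comm]
      _ ≤ _ := by gcongr; exact Nat.cast_div_le
  have h3 : (B.card : ℝ) / 2 ≤ ∑ j ∈ G, n j := by
    have := sum_filter_add_sum_filter_not J (fun j => n0 ≤ n j) n
    linarith
  have h4 : ∑ j ∈ J, n j ^ 2 ≤ B.card + 2 * Z := by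
    set K := (B ×ˢ B).filter fun q => q.1 / H = q.2 / H with hK
    have h5 : (K.card : ℝ) = ∑ j ∈ J, n j ^ 2 := by
      rw [card_eq_sum_card_fiberwise (f := fun q => q.1 / H) (t := J)
        (fun q hq => hmaps _ (mem_product.mp (mem_filter.mp hq).1).1)]
      push_cast
      refine sum_congr rfl fun j _ => ?_
      have : K.filter (fun q => q.1 / H = j) = B.filter (· / H = j) ×ˢ B.filter (· / H = j) := by
        ext q
        simp only [hK, mem_filter, mem_product]
        constructor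
        · rintro ⟨⟨⟨h1, h2⟩, h3⟩, h4⟩; exact ⟨⟨h1, h4⟩, h2, h3 ▸ h4⟩
        · rintro ⟨⟨h1, h2⟩, h3, h4⟩; exact ⟨⟨⟨h1, h3⟩, h2.trans h4.symm⟩, h2⟩
      rw [this, card_product, hn]; push_cast; ring
    have h6 : K ⊆ B.image (fun y => (y, y)) ∪ (F ∪ F.image Prod.swap) := by
      intro q hq
      obtain ⟨hq1, hq2⟩ := mem_filter.mp hq
      obtain ⟨ha, hb⟩ := mem_product.mp hq1
      have e1 := Nat.div_add_mod q.1 H
      have e2 := Nat.div_add_mod q.2 H
      have e3 := Nat.mod_lt q.1 hH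
      have e4 := Nat.mod_lt q.2 hH
      rw [hq2] at e1
      rcases lt_trichotomy q.1 q.2 with h | h | h
      · exact mem_union_right _ (mem_union_left _ (mem_filter.mpr ⟨hq1, h, by omega⟩))
      · exact mem_union_left _ (mem_image.mpr ⟨q.1, ha, Prod.ext rfl h⟩)
      · exact mem_union_right _ (mem_union_right _ (mem_image.mpr ⟨q.swap,
          mem_filter.mpr ⟨mem_product.mpr ⟨hb, ha⟩, h, by simp only [Prod.fst_swap, Prod.snd_swap]; omega⟩,
          Prod.swap_swap q⟩))
    have h7 : K.card ≤ B.card + (F.card + F.card) :=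
      (card_le_card h6).trans ((card_union_le _ _).trans (add_le_add card_image_le
        ((card_union_le _ _).trans (add_le_add le_rfl card_image_le))))
    have h8 : (K.card : ℝ) ≤ B.card + (F.card + F.card) := by exact_mod_cast h7
    linarith
  have h5 : (∑ j ∈ G, n j) ^ 2 ≤ G.card * ∑ j ∈ G, n j ^ 2 := sq_sum_le_card_mul_sum_sq
  have h6 : ∑ j ∈ G, n j ^ 2 ≤ B.card + 2 * Z :=
    (sum_le_sum_of_subset_of_nonneg (filter_subset _ _) fun _ _ _ => sq_nonneg _).trans h4
  set b : ℝ := (B.card : ℝ)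
  have hb : 0 < b := by linarith
  have h7 : (b / 2) ^ 2 ≤ G.card * (b + 2 * Z) := by
    calc (b / 2) ^ 2 ≤ (∑ j ∈ G, n j) ^ 2 := by gcongr
      _ ≤ _ := h5.trans (by gcongr)
  have h8 : β * (b + 2 * Z) ≤ b * (β + 2 * Z) := by nlinarith
  rw [div_le_iff₀ (by positivity)]
  have h9 : β * (b / 2) ^ 2 ≤ G.card * (b * (β + 2 * Z)) := by
    calc _ ≤ β * (G.card * (b + 2 * Z)) := by gcongr
      _ = G.card * (β * (b + 2 * Z)) := by ring
      _ ≤ _ := by gcongr
  have h10 : b * (β * b) ≤ b * (G.card * (4 * (β + 2 * Z))) := by nlinarith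
  have h11 := le_of_mul_le_mul_left h10 hb
  nlinarith

lemma sum_windows_le (S G : Finset ℕ) (H : ℕ) :
    ∑ j ∈ G, (S.filter fun s => s / H = j ∨ s / H = j + 1).card ≤ 2 * S.card := by
  have h1 : ∀ f : ℕ → ℕ, Function.Injective f →
      ∑ j ∈ G, (S.filter fun s => s / H = f j).card ≤ S.card := by
    intro f hf
    rw [← card_biUnion]
    · exact card_le_card (biUnion_subset.mpr fun j _ => filter_subset _ _)
    · intro i _ j _ hij
      rw [Function.onFun, disjoint_filter]
      intro s _ h1 h2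
      exact hij (hf (h1.symm.trans h2))
  have h2 := h1 id Function.injective_id
  have h3 := h1 (· + 1) (add_left_injective 1)
  calc _ ≤ ∑ j ∈ G, ((S.filter fun s => s / H = j).card + (S.filter fun s => s / H = j + 1).card) := by
        refine sum_le_sum fun j _ => ?_
        rw [filter_or]; exact card_union_le _ _
    _ ≤ _ := by
        rw [sum_add_distrib]
        simp only [id] at h2
        omega

theorem main (a b : ℕ) : ∃ c : ℝ, 0 < c ∧ ∀ᶠ X : ℕ in atTop,
    c * X / (log (log X) ^ b * log (log (log X))) ≤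
      (Set.ncard {n : ℕ | n ≤ X ∧ ∃ x y : ℕ, 0 < x ∧ 0 < y ∧ pp^[a + 1] x ≠ pp^[b + 1] y ∧
        pp^[a + 1] x + pp^[b + 1] y = 2 * n} : ℝ) := by
  obtain ⟨c, hc, hloc⟩ := local_sumset b
  obtain ⟨c1, hc1, hcard⟩ := card_itLE_ge (a + 1)
  obtain ⟨C1, D1, hC1, hprs⟩ := card_prs_le (a + 1)
  set D := D1 + a + 2 with hD
  have hHt : Tendsto (fun X : ℕ => ⌈log (X : ℝ) ^ D⌉₊) atTop atTop :=
    tendsto_nat_ceil_atTop.comp ((tendsto_pow_atTop (by omega)).comp tendsto_log_nat)
  set c2 : ℝ := c1 ^ 2 / (16 * (c1 / 2 + 2 * C1)) with hc2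
  refine ⟨c * c2 / (4 * (D + 1) ^ b), by positivity, ?_⟩
  filter_upwards [hcard, hprs, hHt.eventually hloc, hHt.eventually_ge_atTop (2 ^ 16),
    ev_log_pow_le_sqrt_nat (D + a + 1) (8 / c1), ev_log_pow_le_sqrt_nat D 2,
    tendsto_log_nat.eventually (ev_log_pow_le_sqrt (b + 14) (8 * (D + 1) ^ (b + 14) / c1)),
    tendsto_log_nat.eventually_ge_atTop 2, eventually_ge_atTop 1,
    (tendsto_log_atTop.comp tendsto_log_nat).eventually_ge_atTop (D + 1),
    (tendsto_log_atTop.comp (tendsto_log_atTop.comp tendsto_log_nat)).eventually_ge_atTop 1]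
    with X hcard hprs hloc hH16 hs1 hs2 hs3 hL2 hX1 hLL hLLL
  simp only [Function.comp] at hLL hLLL
  set L := log (X : ℝ) with hL
  set H := ⌈L ^ D⌉₊ with hH
  have hL1 : 1 ≤ L := by linarith
  have hL0 : 0 < L := by linarith
  have hX0 : (1 : ℝ) ≤ X := by exact_mod_cast hX1
  have hD0 : (0 : ℝ) ≤ D := Nat.cast_nonneg D
  have hsq : √(X : ℝ) * √X = X := mul_self_sqrt (Nat.cast_nonneg X)
  have hs : 1 ≤ √(X : ℝ) := one_le_sqrt.mpr hX0
  have hsX : √(X : ℝ) ≤ X := by nlinarith
  have hH1 : L ^ D ≤ H := Nat.le_ceil _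
  have hLD : 1 ≤ L ^ D := one_le_pow₀ hL1
  have hH2 : (H : ℝ) ≤ 2 * L ^ D := by
    have := Nat.ceil_lt_add_one (a := L ^ D) (by positivity)
    linarith
  have hH0 : (0 : ℝ) < H := by linarith
  have hHpos : 0 < H := by exact_mod_cast hH0
  have hHX : (H : ℝ) ≤ X := by linarith
  have hlH : log H ≤ (D + 1) * log L := by
    have h1 : (H : ℝ) ≤ L ^ (D + 1) := by rw [pow_succ]; nlinarith
    have := log_le_log hH0 h1
    rw [log_pow] at this
    exact_mod_cast this
  have hlH' : log L ≤ log H :=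
    log_le_log hL0 ((le_self_pow₀ hL1 (by omega)).trans hH1)
  have hLL0 : 0 < log L := by linarith
  have hllH : log (log H) ≤ 2 * log (log L) := by
    have h1 : log H ≤ log L ^ 2 := by nlinarith
    have := log_le_log (by linarith) h1
    rw [log_pow] at this
    exact_mod_cast this
  have hllH' : log (log L) ≤ log (log H) := log_le_log hLL0 hlH'
  set B := (itLE (a + 1) X).filter (2 * H ≤ ·) with hB
  set β : ℝ := c1 * X / (2 * L ^ (a + 1)) with hβ
  have hβ0 : 0 < β := by positivity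
  have hBc : β ≤ B.card := by
    have h5 : (itLE (a + 1) X).card ≤ B.card + 2 * H := by
      have : itLE (a + 1) X ⊆ B ∪ range (2 * H) := by
        intro n hn
        rw [mem_union, hB, mem_filter, mem_range]
        by_cases h : n < 2 * H
        · exact Or.inr h
        · exact Or.inl ⟨hn, by omega⟩
      exact (card_le_card this).trans ((card_union_le _ _).trans (by simp))
    have h6 : ((itLE (a + 1) X).card : ℝ) ≤ B.card + 2 * H := by exact_mod_cast h5
    have h7 : 2 * (H : ℝ) ≤ β := by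
      rw [hβ, le_div_iff₀ (by positivity)]
      rw [div_mul_eq_mul_div, div_le_iff₀ hc1] at hs1
      calc 2 * (H : ℝ) * (2 * L ^ (a + 1)) ≤ 2 * (2 * L ^ D) * (2 * L ^ (a + 1)) := by gcongr
        _ = 8 * L ^ (D + a + 1) := by ring
        _ ≤ √X * c1 := hs1
        _ ≤ c1 * X := by rw [mul_comm]; gcongr
    have e : c1 * X / L ^ (a + 1) = 2 * β := by rw [hβ]; field_simp
    linarith
  have hbad : log H ^ (b + 14) * (X / H + 1) ≤ β / 2 := by
    have h1 : (X : ℝ) / H + 1 ≤ 2 * X / L ^ (a + 2) := by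
      have h2 : 1 ≤ (X : ℝ) / H := by rw [le_div_iff₀ hH0]; linarith
      have h3 : (X : ℝ) / H ≤ X / L ^ (a + 2) := by
        gcongr
        exact (pow_le_pow_right₀ hL1 (by omega)).trans hH1
      rw [mul_div_assoc]; linarith
    have h2 : √L ≤ L := by
      have := mul_self_sqrt hL0.le
      have := one_le_sqrt.mpr hL1
      nlinarith
    have h3 : ((D + 1) * log L) ^ (b + 14) ≤ c1 * L / 8 := by
      rw [div_mul_eq_mul_div, div_le_iff₀ hc1] at hs3
      rw [mul_pow, le_div_iff₀ (by norm_num)]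
      nlinarith
    have h4 : 0 ≤ log (H : ℝ) := by linarith
    calc _ ≤ ((D + 1) * log L) ^ (b + 14) * (2 * X / L ^ (a + 2)) := by gcongr
      _ ≤ c1 * L / 8 * (2 * X / L ^ (a + 2)) := by gcongr
      _ = β / 2 := by rw [hβ]; field_simp; ring
  have hZ : (((B ×ˢ B).filter fun q => q.1 < q.2 ∧ q.2 ≤ q.1 + H).card : ℝ)
      ≤ C1 * X * H / L ^ (2 * (a + 1)) := by
    refine le_trans ?_ (hprs H ((pow_le_pow_right₀ hL1 (by omega)).trans hH1))
    exact_mod_cast card_le_card (filter_subset_filter _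
      (product_subset_product (filter_subset _ _) (filter_subset _ _)))
  have hgood := good_blocks B X H hHpos (fun y hy => (mem_itLE.mp (mem_filter.mp hy).1).1)
    (log H ^ (b + 14)) β _ hβ0 hBc (pow_nonneg (by linarith) _) hbad hZ
  set G := (range (X / H + 1)).filter fun j =>
    log H ^ (b + 14) ≤ ((B.filter (· / H = j)).card : ℝ) with hG
  have hGc : c2 * X / H ≤ G.card := by
    refine le_trans ?_ hgood
    have h1 : β ≤ c1 / 2 * X * H / L ^ (2 * (a + 1)) := by
      have h2 : L ^ (a + 1) ≤ H := (pow_le_pow_right₀ hL1 (by omega)).trans hH1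
      calc β = c1 / 2 * X * L ^ (a + 1) / L ^ (2 * (a + 1)) := by rw [hβ]; field_simp; ring
        _ ≤ _ := by gcongr
    calc c2 * X / H = β ^ 2 / (4 * (c1 / 2 * X * H / L ^ (2 * (a + 1))
          + 2 * (C1 * X * H / L ^ (2 * (a + 1))))) := by
          rw [hβ, hc2]; field_simp; ring
      _ ≤ _ := by gcongr
  set S := (smallSet (b + 1) H ×ˢ B).image fun q => q.1 + q.2 with hS
  have hwin : ∀ j ∈ G, c * H / (log H ^ b * log (log H)) ≤
      ((S.filter fun s => s / H = j ∨ s / H = j + 1).card : ℝ) := by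
    intro j hj
    have hsub : B.filter (· / H = j) ⊆ Ico (j * H) (j * H + H) := by
      intro t ht
      have h1 := (mem_filter.mp ht).2
      have e1 := Nat.div_add_mod' t H
      have e2 := Nat.mod_lt t hHpos
      rw [h1] at e1
      rw [mem_Ico]; omega
    refine hloc (j * H) _ _ hsub (mem_filter.mp hj).2 fun u hu t ht => ?_
    refine mem_filter.mpr ⟨mem_image.mpr ⟨(u, t), mem_product.mpr ⟨hu, (mem_filter.mp ht).1⟩, rfl⟩, ?_⟩
    have h1 := mem_Ico.mp (hsub ht)
    have h2 := mem_Ioc.mp (itLE_subset _ _ (mem_filter.mp hu).1)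
    have h3 : j ≤ (u + t) / H := (Nat.le_div_iff_mul_le hHpos).mpr (by omega)
    have h4 : (u + t) / H < j + 2 := (Nat.div_lt_iff_lt_mul hHpos).mpr (by
      rw [add_mul]; omega)
    omega
  have hSc : G.card * (c * H / (log H ^ b * log (log H))) ≤ 2 * S.card := by
    have h1 := sum_le_sum hwin
    rw [sum_const, nsmul_eq_mul] at h1
    refine h1.trans ?_
    exact_mod_cast sum_windows_le S G H
  have hR2 := (root_facts hH16).1
  have hfin : (S.card : ℝ) ≤ (Set.ncard {n : ℕ | n ≤ X ∧ ∃ x y : ℕ, 0 < x ∧ 0 < y ∧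
      pp^[a + 1] x ≠ pp^[b + 1] y ∧ pp^[a + 1] x + pp^[b + 1] y = 2 * n} : ℝ) := by
    have hHX' : H ≤ X := by exact_mod_cast hHX
    have hmem : ∀ s ∈ S, 2 * (s / 2) = s ∧ s / 2 ≤ X ∧ ∃ x y : ℕ, 0 < x ∧ 0 < y ∧
        pp^[a + 1] x ≠ pp^[b + 1] y ∧ pp^[a + 1] x + pp^[b + 1] y = 2 * (s / 2) := by
      intro s hs
      obtain ⟨⟨u, t⟩, hq, rfl⟩ := mem_image.mp hs
      obtain ⟨hu, ht⟩ := mem_product.mp hq
      obtain ⟨hu1, hu2⟩ := mem_filter.mp hu
      obtain ⟨ht1, ht2⟩ := mem_filter.mp ht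
      obtain ⟨hu3, hu4⟩ := mem_itLE.mp hu1
      obtain ⟨ht3, ht4⟩ := mem_itLE.mp ht1
      simp only at hu2 ht2 hu3 ht3 hu4 ht4 ⊢
      have o1 := hu4.prime.eq_two_or_odd
      have o2 := ht4.prime.eq_two_or_odd
      obtain ⟨y, hy, hy'⟩ := hu4
      obtain ⟨x, hx, hx'⟩ := ht4
      refine ⟨by omega, by omega, x, y, hx, hy, ?_, ?_⟩
      · rw [hx', hy']; omega
      · rw [hx', hy']; omega
    rw [← Set.ncard_coe_finset]
    refine Nat.cast_le.mpr (Set.ncard_le_ncard_of_injOn (· / 2) (fun s hs => (hmem s hs).2) ?_ ?_)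
    · intro s hs s' hs' h
      have h1 := (hmem s hs).1
      have h2 := (hmem s' hs').1
      simp only at h
      omega
    · exact (Set.finite_Iic X).subset fun n hn => hn.1
  refine le_trans ?_ hfin
  have h0 : 0 < log (H : ℝ) := by linarith
  have h0' : 0 < log (log (H : ℝ)) := by linarith
  have h1 : c2 * X / H * (c * H / (((D + 1) * log L) ^ b * (2 * log (log L))))
      ≤ G.card * (c * H / (log H ^ b * log (log H))) := by gcongr
  have e : c2 * X / H * (c * H / (((D + 1) * log L) ^ b * (2 * log (log L))))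
      = 2 * (c * c2 / (4 * (D + 1) ^ b) * X / (log L ^ b * log (log L))) := by
    have : log (log L) ≠ 0 := by linarith
    rw [mul_pow]; field_simp; ring
  linarith

end Pool.Agent.Lib.MP_778b46_nt
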