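import Pool.Agent.Lib.MP_778b46_nt.Star

/-!
Bounded sums of iterated prime-indexed primes have polylogarithmic gaps.
-/

namespace Pool.Agent.Lib.MP_778b46_nt.NearSum

theorem result (a : ℕ) : ∃ C D : ℕ,
    ∀ n : ℕ, C ≤ n → ∃ (s : Finset ℕ) (r : ℕ), s.card ≤ C ∧
      (∀ q ∈ s, ∃ x : ℕ, 0 < x ∧
        Nat.iterate (fun k : ℕ => Nat.nth Nat.Prime (k - 1)) (a + 1) x = q) ∧
      ∑ q ∈ s, q + r = n ∧ (r : ℝ) ≤ Real.log n ^ D :=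
  Pool.Agent.Lib.MP_778b46_nt.near (a + 1)

end Pool.Agent.Lib.MP_778b46_nt.NearSum
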