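import Mathlib

/-!
Sums over an interval of products of functions with coprime periods.
-/

open Finset

namespace Pool.Agent.Lib.MP_778b46_nt

lemma count_modEq (q : ℕ) (hq : 0 < q) (c y : ℤ) (N : ℕ) :
    |(((Ioc y (y + N)).filter (fun s => s ≡ c [ZMOD q])).card : ℝ) - N / q| ≤ 1 := by
  have hq' : (0 : ℤ) < q := by exact_mod_cast hq
  have h := Int.Ioc_filter_modEq_card y (y + N) hq' c
  have hqr : (0 : ℚ) < q := by exact_mod_cast hq
  set A : ℚ := ((y + N : ℤ) - c : ℚ) / ((q : ℤ) : ℚ) with hA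
  set B : ℚ := (y - c : ℚ) / ((q : ℤ) : ℚ) with hB
  have hAB : A - B = N / q := by
    rw [hA, hB]; push_cast; field_simp; ring
  have hN : (0 : ℚ) ≤ N / q := by positivity
  have hfl : ⌊B⌋ ≤ ⌊A⌋ := Int.floor_le_floor (by linarith)
  rw [max_eq_left (by omega)] at h
  have h1 := Int.floor_le A
  have h2 := Int.lt_floor_add_one A
  have h3 := Int.floor_le B
  have h4 := Int.lt_floor_add_one B
  have h5 : (((Ioc y (y + N)).filter (fun s => s ≡ c [ZMOD q])).card : ℚ) = ⌊A⌋ - ⌊B⌋ := by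
    exact_mod_cast h
  have h6 : |(((Ioc y (y + N)).filter (fun s => s ≡ c [ZMOD q])).card : ℚ) - N / q| ≤ 1 := by
    rw [h5, ← hAB, abs_le]; constructor <;> linarith
  have h7 := (Rat.cast_le (K := ℝ)).mpr h6
  push_cast at h7
  exact h7

lemma exists_crt {q l : ℕ} (h : Nat.Coprime q l) (c z : ℤ) :
    ∃ v : ℤ, ∀ s : ℤ, (s ≡ c [ZMOD q] ∧ s ≡ z [ZMOD l]) ↔ s ≡ v [ZMOD ((q * l : ℕ) : ℤ)] := by
  have hc : IsCoprime (q : ℤ) (l : ℤ) := Nat.isCoprime_iff_coprime.mpr h
  obtain ⟨a, b, hab⟩ := hc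
  have hv1 : c * (b * l) + z * (a * q) ≡ c [ZMOD q] := by
    rw [Int.modEq_iff_dvd]
    exact ⟨c * a - z * a, by linear_combination (-c) * hab⟩
  have hv2 : c * (b * l) + z * (a * q) ≡ z [ZMOD l] := by
    rw [Int.modEq_iff_dvd]
    exact ⟨z * b - c * b, by linear_combination (-z) * hab⟩
  refine ⟨c * (b * l) + z * (a * q), fun s => ?_⟩
  push_cast
  rw [← Int.modEq_and_modEq_iff_modEq_mul (by simpa using h)]
  constructor
  · rintro ⟨h1, h2⟩; exact ⟨h1.trans hv1.symm, h2.trans hv2.symm⟩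
  · rintro ⟨h1, h2⟩; exact ⟨h1.trans hv1, h2.trans hv2⟩

lemma sum_prod_aux (f : ℕ → ℤ → ℝ) (hf : ∀ l s s', s ≡ s' [ZMOD (l : ℕ)] → f l s = f l s')
    (y : ℤ) (N : ℕ) (V : Finset ℕ) (hV : ∀ l ∈ V, l.Prime) :
    ∀ (q : ℕ) (c : ℤ), 0 < q → (∀ l ∈ V, Nat.Coprime q l) →
    |∑ s ∈ (Ioc y (y + N)).filter (fun s => s ≡ c [ZMOD q]), ∏ l ∈ V, f l s
      - N / q * ∏ l ∈ V, ((∑ z ∈ range l, f l z) / l)| ≤ ∏ l ∈ V, ∑ z ∈ range l, |f l z| := by
  induction V using Finset.induction_on with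
  | empty =>
    intro q c hq _
    simpa using count_modEq q hq c y N
  | insert l V hl ih =>
    intro q c hq hco
    have hlp : l.Prime := hV l (mem_insert_self _ _)
    have hl0 : (0 : ℤ) < l := by exact_mod_cast hlp.pos
    have hlr : (0 : ℝ) < l := by exact_mod_cast hlp.pos
    have hqr : (0 : ℝ) < q := by exact_mod_cast hq
    have ih' := ih (fun m hm => hV m (mem_insert_of_mem hm))
    simp only [prod_insert hl]
    choose v hv using fun z : ℕ => exists_crt (hco l (mem_insert_self _ _)) c z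
    have hsplit : ∑ s ∈ (Ioc y (y + N)).filter (fun s => s ≡ c [ZMOD q]),
        f l s * ∏ m ∈ V, f m s = ∑ z ∈ range l, f l z *
          ∑ s ∈ (Ioc y (y + N)).filter (fun s => s ≡ v z [ZMOD ((q * l : ℕ) : ℤ)]),
            ∏ m ∈ V, f m s := by
      rw [← sum_fiberwise_of_maps_to (g := fun s : ℤ => (s % l).toNat) (t := range l)]
      · refine sum_congr rfl fun z hz => ?_
        rw [mul_sum, filter_filter]
        have hz' : (z : ℤ) % l = z := Int.emod_eq_of_lt (by positivity) (by exact_mod_cast mem_range.mp hz)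
        have hiff : ∀ s : ℤ, (s % l).toNat = z ↔ s ≡ z [ZMOD l] := by
          intro s
          have := Int.emod_nonneg s hl0.ne'
          unfold Int.ModEq
          rw [hz']; omega
        refine sum_congr (filter_congr fun s _ => by rw [hiff, hv]) fun s hs => ?_
        rw [hf l s z (((hv z s).mpr (mem_filter.mp hs).2).2)]
      · intro s _
        have h1 := Int.emod_nonneg s hl0.ne'
        have h2 := Int.emod_lt_of_pos s hl0
        rw [mem_range]; omega
    rw [hsplit]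
    have e : (N : ℝ) / q * ((∑ z ∈ range l, f l z) / l * ∏ m ∈ V, ((∑ z ∈ range m, f m z) / m))
        = ∑ z ∈ range l, f l z * (N / ((q * l : ℕ) : ℝ) *
          ∏ m ∈ V, ((∑ z ∈ range m, f m z) / m)) := by
      rw [← sum_mul]; push_cast; field_simp
    rw [e, ← sum_sub_distrib, sum_mul]
    refine (abs_sum_le_sum_abs _ _).trans (sum_le_sum fun z _ => ?_)
    rw [← mul_sub, abs_mul]
    refine mul_le_mul_of_nonneg_left ?_ (abs_nonneg _)
    refine ih' (q * l) (v z) (Nat.mul_pos hq hlp.pos) fun m hm => ?_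
    refine Nat.Coprime.mul_left (hco m (mem_insert_of_mem hm)) ?_
    rw [Nat.coprime_primes hlp (hV m (mem_insert_of_mem hm))]
    rintro rfl; exact hl hm

/-- Sum over an interval of a product of functions with distinct prime periods. -/
lemma sum_prod_periodic (f : ℕ → ℤ → ℝ) (hf : ∀ l s s', s ≡ s' [ZMOD (l : ℕ)] → f l s = f l s')
    (y : ℤ) (N : ℕ) (V : Finset ℕ) (hV : ∀ l ∈ V, l.Prime) :
    |∑ s ∈ Ioc y (y + N), ∏ l ∈ V, f l s
      - N * ∏ l ∈ V, ((∑ z ∈ range l, f l z) / l)| ≤ ∏ l ∈ V, ∑ z ∈ range l, |f l z| := by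
  have h := sum_prod_aux f hf y N V hV 1 0 one_pos (fun l _ => Nat.coprime_one_left l)
  rw [filter_true_of_mem (fun s _ => by simpa using Int.modEq_one)] at h
  simpa using h

end Pool.Agent.Lib.MP_778b46_nt
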