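import Mathlib

/-!
Sets of positive Schnirelmann density are bases, with an order depending only on the density.
-/

open Finset
open scoped Pointwise

namespace Pool.Agent.Lib.MP_778b46_nt

open Classical in
/-- Number of elements of `A` in `[1, n]`. -/
noncomputable def cn (A : Set ℕ) (n : ℕ) : ℕ := ((Ioc 0 n).filter (· ∈ A)).card

lemma cn_succ_mem {A : Set ℕ} {n : ℕ} (h : n + 1 ∈ A) : cn A (n + 1) = cn A n + 1 := by
  classical
  unfold cn
  rw [← insert_Ioc_right_eq_Ioc_add_one (Nat.zero_le n), filter_insert, if_pos h,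
    card_insert_of_notMem (by simp)]

lemma cn_succ_not {A : Set ℕ} {n : ℕ} (h : n + 1 ∉ A) : cn A (n + 1) = cn A n := by
  classical
  unfold cn
  rw [← insert_Ioc_right_eq_Ioc_add_one (Nat.zero_le n), filter_insert, if_neg h]

lemma cn_gap {A : Set ℕ} {m : ℕ} : ∀ d, (∀ x ∈ A, m < x → m + d < x) → cn A (m + d) = cn A m := by
  intro d
  induction d with
  | zero => intro _; rfl
  | succ d ih =>
    intro h
    rw [← add_assoc, cn_succ_not fun hx => by have := h _ hx (by omega); omega]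
    exact ih fun x hx hm => by have := h x hx hm; omega

lemma cn_shift {A B : Set ℕ} {m : ℕ} (hm : m ∈ A) (d : ℕ) :
    cn (A + B) m + cn B d ≤ cn (A + B) (m + d) := by
  induction d with
  | zero => simp [cn]
  | succ d ih =>
    by_cases h : d + 1 ∈ B
    · have h' : m + d + 1 ∈ A + B := ⟨m, hm, d + 1, h, by simp [add_assoc]⟩
      rw [← add_assoc, cn_succ_mem h, cn_succ_mem h']; omega
    · rw [cn_succ_not h, ← add_assoc]
      by_cases h' : m + d + 1 ∈ A + B
      · rw [cn_succ_mem h']; omega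
      · rw [cn_succ_not h']; omega

lemma schn_add {A B : Set ℕ} {b : ℝ} (h0A : 0 ∈ A) (h0B : 0 ∈ B)
    (hB : ∀ n : ℕ, b * n ≤ cn B n) (n : ℕ) :
    (cn A n : ℝ) + b * (n - cn A n) ≤ cn (A + B) n := by
  classical
  induction n using Nat.strong_induction_on with
  | _ n ih =>
    set m := Nat.findGreatest (· ∈ A) n with hm
    have hmA : m ∈ A := Nat.findGreatest_spec (P := (· ∈ A)) (Nat.zero_le n) h0A
    have hmn : m ≤ n := Nat.findGreatest_le n
    obtain ⟨d, hd⟩ := Nat.exists_eq_add_of_le hmn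
    have hg : cn A n = cn A m := by
      rw [hd]
      refine cn_gap d fun x hx hmx => ?_
      by_contra hc
      exact Nat.findGreatest_is_greatest (P := (· ∈ A)) hmx (by omega) hx
    have hs : (cn (A + B) m : ℝ) + cn B d ≤ cn (A + B) n := by
      rw [hd]; exact_mod_cast cn_shift hmA d
    have hBd := hB d
    have hn : (n : ℝ) = m + d := by rw [hd]; push_cast; ring
    rw [hg]
    rcases Nat.eq_zero_or_pos m with h0 | h0
    · rw [h0] at hs hn ⊢
      have e : ∀ C : Set ℕ, cn C 0 = 0 := fun C => by simp [cn]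
      rw [e] at hs ⊢
      rw [hn]; push_cast at hs ⊢; linarith
    · obtain ⟨k, hk⟩ : ∃ k, m = k + 1 := ⟨m - 1, by omega⟩
      have h1 := ih k (by omega)
      rw [hk] at hmA hs hn ⊢
      have h2 : k + 1 ∈ A + B := ⟨k + 1, hmA, 0, h0B, rfl⟩
      rw [cn_succ_mem h2] at hs
      rw [cn_succ_mem hmA, hn]
      push_cast at hs ⊢
      nlinarith

lemma schn_pow {B : Set ℕ} {b : ℝ} (hb1 : b ≤ 1) (h0B : 0 ∈ B) (hB : ∀ n : ℕ, b * n ≤ cn B n)
    (k : ℕ) : 0 ∈ k • B ∧ ∀ n : ℕ, (1 - (1 - b) ^ k) * n ≤ cn (k • B) n := by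
  induction k with
  | zero => exact ⟨by simp, fun n => by simp⟩
  | succ k ih =>
    rw [succ_nsmul]
    refine ⟨⟨0, ih.1, 0, h0B, rfl⟩, fun n => le_trans ?_ (schn_add ih.1 h0B hB n)⟩
    have h1 := ih.2 n
    have h2 : 0 ≤ 1 - b := by linarith
    have h3 := mul_le_mul_of_nonneg_left h1 h2
    rw [pow_succ]
    nlinarith

/-- Schnirelmann's theorem, uniform in the set. -/
theorem schn_basis {b : ℝ} (hb : 0 < b) (hb1 : b ≤ 1) : ∃ K : ℕ, ∀ B : Set ℕ, 0 ∈ B →
    (∀ n : ℕ, b * n ≤ cn B n) → ∀ n : ℕ, n ∈ K • B := by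
  classical
  obtain ⟨k, hk⟩ := exists_pow_lt_of_lt_one (x := (1 / 2 : ℝ)) (y := 1 - b) (by norm_num)
    (by linarith)
  refine ⟨k + k, fun B h0 hB n => ?_⟩
  obtain ⟨h1, h2⟩ := schn_pow hb1 h0 hB k
  have h3 : 1 / 2 ≤ schnirelmannDensity (k • B) := by
    rw [le_schnirelmannDensity_iff]
    intro m hm
    have hm' : (0 : ℝ) < m := by exact_mod_cast hm
    rw [le_div_iff₀ hm']
    refine le_trans ?_ ((h2 m).trans (le_of_eq ?_))
    · nlinarith
    · unfold cn; congr
  rw [add_nsmul, add_eq_univ_of_one_le_schirelmannDensity_add_schnirelmannDensity h1 h1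
    (by linarith)]
  trivial

end Pool.Agent.Lib.MP_778b46_nt
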