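import Pool.Agent.Lib.MP_778b46_nt.Step
import Pool.Agent.Lib.MP_778b46_nt.Base

/-!
Every large `n` is a sum of `O(log* n)` distinct iterated primes.
-/

open Finset Real Filter

namespace Pool.Agent.Lib.MP_778b46_nt

lemma ev_ceil (C D : ℕ) : ∀ᶠ n : ℕ in atTop, C * ⌈log n ^ D⌉₊ ^ 3 ≤ n := by
  filter_upwards [ev_log_pow_le_sqrt_nat (D * 3) (C * 8), tendsto_log_nat.eventually_ge_atTop 1,
    eventually_ge_atTop 1] with n h1 h2 h3
  have hn : (1 : ℝ) ≤ n := by exact_mod_cast h3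
  have h4 : √(n : ℝ) ≤ n := by
    rw [sqrt_le_left (by linarith)]; nlinarith
  have h5 : 1 ≤ log (n : ℝ) ^ D := one_le_pow₀ h2
  have h6 : (⌈log (n : ℝ) ^ D⌉₊ : ℝ) ≤ 2 * log n ^ D := by
    have := Nat.ceil_lt_add_one (a := log (n : ℝ) ^ D) (by linarith)
    linarith
  have h7 : (C : ℝ) * (⌈log (n : ℝ) ^ D⌉₊ : ℝ) ^ 3 ≤ n := by
    calc _ ≤ C * (2 * log n ^ D) ^ 3 := by gcongr
      _ = C * 8 * log n ^ (D * 3) := by rw [pow_mul]; ring
      _ ≤ _ := h1.trans h4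
  exact_mod_cast h7

lemma exists_expo (C E : ℕ) : ∃ M : ℕ, 0 < M ∧ ∀ t : ℕ, 2 ≤ t → C * (M * t) ^ E ≤ t ^ M := by
  have h := (tendsto_pow_const_div_const_pow_of_one_lt E (r := 2) one_lt_two).eventually
    (eventually_le_nhds (b := (1 : ℝ) / (C * 2 ^ E + 1)) (by positivity))
  obtain ⟨M, h1, h2⟩ := (h.and (eventually_ge_atTop (E + 1))).exists
  refine ⟨M, by omega, fun t ht => ?_⟩
  obtain ⟨e, rfl⟩ := Nat.exists_eq_add_of_le (show E ≤ M by omega)
  have h3 : C * (E + e) ^ E ≤ 2 ^ e := by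
    rw [div_le_div_iff₀ (by positivity) (by positivity), one_mul, pow_add] at h1
    have h4 : (0 : ℝ) < 2 ^ E := by positivity
    have h5 : (0 : ℝ) ≤ ((E + e : ℕ) : ℝ) ^ E := by positivity
    have h6 : (C : ℝ) * ((E + e : ℕ) : ℝ) ^ E ≤ 2 ^ e := by
      refine le_of_mul_le_mul_left ?_ h4
      nlinarith
    exact_mod_cast h6
  calc C * ((E + e) * t) ^ E = t ^ E * (C * (E + e) ^ E) := by rw [mul_pow]; ring
    _ ≤ t ^ E * t ^ e := Nat.mul_le_mul_left _ (h3.trans (Nat.pow_le_pow_left ht e))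
    _ = _ := by rw [pow_add]

lemma ceil_log_le {n u : ℕ} (D : ℕ) (h : n ≤ 2 ^ u) : ⌈log n ^ D⌉₊ ≤ u ^ D := by
  rw [Nat.ceil_le]
  push_cast
  refine pow_le_pow_left₀ (log_natCast_nonneg n) ?_ D
  rcases Nat.eq_zero_or_pos n with h0 | h0
  · simp [h0]
  have h1 : log (n : ℝ) ≤ log (2 ^ u) :=
    log_le_log (by exact_mod_cast h0) (by exact_mod_cast h)
  rw [log_pow] at h1
  have := log_two_lt_d9
  have : (0 : ℝ) ≤ u := Nat.cast_nonneg u
  nlinarith

theorem log_star (k : ℕ) : ∃ C : ℕ, ∀ j n : ℕ, C ≤ n → n ≤ (fun t : ℕ => 2 ^ t)^[j] 1 →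
    ∃ s : Finset ℕ, s.card ≤ C * j ∧ (∀ y ∈ s, IsIt (k + 1) y) ∧ ∑ y ∈ s, y = n := by
  obtain ⟨K, K', D, X0, hK', hD, hstep⟩ := step (k + 1)
  obtain ⟨M, hM0, hM⟩ := exists_expo (K' + 1) (D * 3)
  obtain ⟨N0, hN0⟩ := eventually_atTop.mp (ev_ceil (1 + K' * (2 + K')) D)
  obtain ⟨X, R, B, hX, hR0, hR, hB1, hB2⟩ := base k K' (X0 + N0 + M ^ D + 2)
  set h : ℕ → ℕ := fun n => ⌈log n ^ D⌉₊ with hh
  set P : ℕ → ℕ → Prop := fun n m => ∀ F : Finset ℕ, F.card ≤ K →
    (∀ y ∈ F, X ≤ y ∧ (X < h n → R + K' * h n < y)) →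
    ∃ s : Finset ℕ, s.card ≤ m ∧ (∀ y ∈ s, IsIt (k + 1) y) ∧ Disjoint s F ∧ ∑ y ∈ s, y = n
    with hP
  have low : ∀ n m, R ≤ n → h n ≤ X → P n (K + B.card + m) := by
    intro n m h1 h2 F hF1 hF2
    obtain ⟨s, r, a1, a2, a3, a4, a5, a6⟩ := hstep X n R (by omega) h1 (Nat.ceil_le.mp h2) F hF1
    obtain ⟨s', b1, b2⟩ := hB2 r a5 a6
    have hd : Disjoint s s' := disjoint_left.mpr fun y hy hy' => by
      have := a2 y hy
      have := hB1 y (b1 hy')
      omega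
    refine ⟨s ∪ s', ?_, fun y hy => ?_, disjoint_union_left.mpr ⟨a3, ?_⟩, ?_⟩
    · have := card_union_le s s'
      have := card_le_card b1
      omega
    · rcases mem_union.mp hy with h | h
      exacts [(a2 y h).1, (hB1 y (b1 h)).1]
    · exact disjoint_left.mpr fun y hy hy' => by
        have := hF2 y hy'
        have := hB1 y (b1 hy)
        omega
    · rw [sum_union hd, b2, ← a4]
  have key : ∀ j n, R ≤ n → n ≤ ((fun t : ℕ => 2 ^ t)^[j] 1 + 1) ^ M →
      P n (K + B.card + K * j) := by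
    intro j
    induction j with
    | zero =>
      intro n h1 h2
      exact low n _ h1 ((ceil_log_le D h2).trans (by omega))
    | succ j ih =>
      intro n h1 h2
      by_cases hl : h n ≤ X
      · exact low n _ h1 hl
      intro F hF1 hF2
      rw [Function.iterate_succ_apply'] at h2
      have hT : 1 ≤ (fun t : ℕ => 2 ^ t)^[j] 1 := by
        cases j with
        | zero => exact le_rfl
        | succ j => rw [Function.iterate_succ_apply']; exact Nat.one_le_two_pow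
      set T := (fun t : ℕ => 2 ^ t)^[j] 1 with hTdef
      have h3 : h n ≤ (M * (T + 1)) ^ D := by
        refine ceil_log_le D (h2.trans ?_)
        rw [mul_comm, pow_mul]
        refine Nat.pow_le_pow_left ?_ M
        have : 1 ≤ 2 ^ T := Nat.one_le_two_pow
        rw [pow_succ]; omega
      obtain ⟨s, r, a1, a2, a3, a4, a5, a6⟩ :=
        hstep (h n) n R (by omega) h1 (Nat.le_ceil _) F hF1
      have hcube : ∀ x : ℕ, X < x → R ≤ x ^ 3 ∧ x ≤ x ^ 3 ∧ 1 ≤ x ^ 3 := fun x hx =>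
        ⟨hR.trans (Nat.pow_le_pow_left hx.le 3), Nat.le_self_pow (by omega) x,
          Nat.one_le_pow _ _ (by omega)⟩
      have h4 : r ≤ (T + 1) ^ M := by
        refine le_trans ?_ (hM (T + 1) (by omega))
        obtain ⟨c1, c2, -⟩ := hcube (h n) (by omega)
        have c3 := Nat.pow_le_pow_left h3 3
        rw [← pow_mul] at c3
        have c4 : K' * h n ≤ K' * (M * (T + 1)) ^ (D * 3) := Nat.mul_le_mul_left _ (by omega)
        rw [add_mul]; omega
      obtain ⟨s', b1, b2, b3, b4⟩ := ih r a5 h4 s a1 fun y hy => by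
        have hy' := (a2 y hy).2
        refine ⟨by omega, fun hr => ?_⟩
        obtain ⟨c1, c2, c3⟩ := hcube (h r) hr
        have c4 : (1 + K' * (2 + K')) * h r ^ 3 ≤ r := hN0 r (by omega)
        have c5 : K' * h r ≤ K' * h r ^ 3 := Nat.mul_le_mul_left _ c2
        have c6 : K' * (R + K' * h r + 1) ≤ K' * ((2 + K') * h r ^ 3) :=
          Nat.mul_le_mul_left _ (by rw [add_mul]; omega)
        have c7 : K' * (R + K' * h r + 1) ≤ K' * h n := by
          rw [add_mul, one_mul, mul_assoc] at c4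
          omega
        have := Nat.le_of_mul_le_mul_left c7 hK'
        omega
      refine ⟨s ∪ s', ?_, fun y hy => ?_, disjoint_union_left.mpr ⟨a3, ?_⟩, ?_⟩
      · have := card_union_le s s'
        rw [mul_add]; omega
      · rcases mem_union.mp hy with h | h
        exacts [(a2 y h).1, b2 y h]
      · refine disjoint_left.mpr fun y hy hy' => ?_
        have c1 := (hF2 y hy').2 (by omega)
        have c2 : y ≤ ∑ y ∈ s', y := single_le_sum (f := fun y => y) (fun _ _ => Nat.zero_le _) hy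
        omega
      · rw [sum_union b3.symm, b4, ← a4]
  refine ⟨R + 2 * K + B.card, fun j n h1 h2 => ?_⟩
  have hj : 0 < j := by
    rcases Nat.eq_zero_or_pos j with h0 | h0
    · rw [h0] at h2
      have : n ≤ 1 := h2
      omega
    · exact h0
  obtain ⟨s, a1, a2, -, a4⟩ := key j n (by omega)
    (h2.trans ((Nat.le_succ _).trans (Nat.le_self_pow hM0.ne' _))) ∅ (by simp) (by simp)
  refine ⟨s, a1.trans ?_, a2, a4⟩
  nlinarith [Nat.zero_le (R * j), Nat.le_mul_of_pos_right (K + B.card) hj]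

theorem near (k : ℕ) : ∃ K D : ℕ, ∀ n : ℕ, K ≤ n → ∃ (s : Finset ℕ) (r : ℕ), s.card ≤ K ∧
    (∀ y ∈ s, IsIt k y) ∧ ∑ y ∈ s, y + r = n ∧ (r : ℝ) ≤ log n ^ D := by
  obtain ⟨K, K', D, X0, hK', hD, hstep⟩ := step k
  obtain ⟨N0, hN0⟩ := eventually_atTop.mp ((tendsto_log_nat.eventually_ge_atTop 1).and
    ((tendsto_log_nat.eventually_ge_atTop X0).and (tendsto_log_nat.eventually_ge_atTop (2 * K'))))
  refine ⟨K + N0, D + 1, fun n hn => ?_⟩
  obtain ⟨h1, h2, h3⟩ := hN0 n (by omega)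
  have h4 : log (n : ℝ) ≤ log n ^ D := le_self_pow₀ h1 hD.ne'
  have h5 := Nat.le_ceil (log (n : ℝ) ^ D)
  have h6 := Nat.ceil_lt_add_one (a := log (n : ℝ) ^ D) (by linarith)
  obtain ⟨s, r, a1, a2, -, a4, -, a6⟩ := hstep ⌈log (n : ℝ) ^ D⌉₊ n 0
    (by exact_mod_cast h2.trans (h4.trans h5)) (Nat.zero_le _) h5 ∅ (by simp)
  refine ⟨s, r, by omega, fun y hy => (a2 y hy).1, a4.symm, ?_⟩
  have h7 : (r : ℝ) ≤ K' * ⌈log (n : ℝ) ^ D⌉₊ := by rw [zero_add] at a6; exact_mod_cast a6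
  have h8 : (0 : ℝ) ≤ K' := Nat.cast_nonneg _
  rw [pow_succ]
  nlinarith

end Pool.Agent.Lib.MP_778b46_nt
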