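import Pool.Agent.Lib.MP_778b46_nt.Main
import Pool.Agent.Lib.MP_778b46_nt.Schn

/-!
One level of the descent: every large `n` is a sum of boundedly many iterated primes and a
remainder of size a power of `log n`.
-/

open Finset Real Filter
open scoped Pointwise

namespace Pool.Agent.Lib.MP_778b46_nt

/-- The window number `j` of length `H` holds at least `n0` elements of `A`. -/
def Rich (A : Set ℕ) (H n0 j : ℕ) : Prop :=
  ∃ E : Finset ℕ, n0 ≤ E.card ∧ ∀ y ∈ E, y ∈ A ∧ y / H = j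

open Classical in
lemma dens (k : ℕ) : ∃ (c : ℝ) (D : ℕ), 0 < c ∧ c ≤ 1 ∧ 0 < D ∧ ∀ n0 : ℕ, ∃ X0 : ℕ, 0 < X0 ∧
    ∀ H t : ℕ, X0 ≤ H → 0 < t → log ((t * H : ℕ) : ℝ) ^ D ≤ H →
      c * t ≤ ((range (t + 1)).filter (Rich {y | IsIt k y} H n0)).card := by
  obtain ⟨c1, hc1, hcard⟩ := card_itLE_ge k
  obtain ⟨C1, D1, hC1, hprs⟩ := card_prs_le k
  refine ⟨min 1 (c1 ^ 2 / (12 * C1)), D1 + k + 1, by positivity, min_le_left _ _, by omega,
    fun n0 => ?_⟩
  obtain ⟨X0, hX0⟩ := eventually_atTop.mp (hcard.and (hprs.and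
    ((tendsto_log_nat.eventually_ge_atTop 1).and
    ((tendsto_log_nat.eventually_ge_atTop (4 * n0 / c1)).and
    (tendsto_log_nat.eventually_ge_atTop (c1 / C1))))))
  refine ⟨X0 + 1, by omega, fun H t hH ht hL => ?_⟩
  have hH0 : 0 < H := by omega
  obtain ⟨h1, h2, h3, h4, h5⟩ := hX0 (t * H) (by nlinarith)
  set L := log ((t * H : ℕ) : ℝ) with hLdef
  have hL0 : 0 < L := by linarith
  have hHr : (0 : ℝ) < H := by exact_mod_cast hH0
  have htr : (1 : ℝ) ≤ t := by exact_mod_cast ht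
  have hk1 : L ^ k * L ≤ H := by
    rw [← pow_succ]; exact (pow_le_pow_right₀ h3 (by omega)).trans hL
  have hD1 : L ^ D1 ≤ H := (pow_le_pow_right₀ h3 (by omega)).trans hL
  have hLk : 0 < L ^ k := by positivity
  have hdiv : t * H / H = t := Nat.mul_div_cancel t hH0
  have hX : ((t * H : ℕ) : ℝ) = t * H := by push_cast; ring
  have hg := good_blocks (itLE k (t * H)) (t * H) H hH0 (fun y hy => (mem_itLE.mp hy).1) n0
    (c1 * (t * H : ℕ) / L ^ k) (C1 * (t * H : ℕ) * H / L ^ (2 * k)) (by rw [hX]; positivity) h1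
    (by positivity) ?_ (h2 H hD1)
  · rw [hdiv] at hg
    refine le_trans ?_ (hg.trans ?_)
    · refine le_trans (mul_le_mul_of_nonneg_right (min_le_right _ _) (by linarith)) ?_
      have h6 : c1 * (t * H) / L ^ k ≤ C1 * (t * H) * H / L ^ (2 * k) := by
        rw [div_le_div_iff₀ hLk (by positivity), two_mul, pow_add]
        rw [div_le_iff₀ hC1] at h5
        have h7 : c1 * L ^ k ≤ C1 * H := by nlinarith
        have h8 : 0 ≤ t * H * L ^ k := by positivity
        nlinarith [mul_le_mul_of_nonneg_left h7 h8]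
      rw [hX]
      calc c1 ^ 2 / (12 * C1) * t
          = (c1 * (t * H) / L ^ k) ^ 2 / (12 * (C1 * (t * H) * H / L ^ (2 * k))) := by
            field_simp
            ring
        _ ≤ _ := by
            apply div_le_div_of_nonneg_left (by positivity) (by positivity)
            linarith
    · refine Nat.cast_le.mpr (card_le_card fun j hj => ?_)
      obtain ⟨hj1, hj2⟩ := mem_filter.mp hj
      refine mem_filter.mpr ⟨hj1, _, by exact_mod_cast hj2, fun y hy => ?_⟩
      obtain ⟨hy1, hy2⟩ := mem_filter.mp hy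
      exact ⟨(mem_itLE.mp hy1).2, hy2⟩
  · rw [hX, mul_div_assoc (t : ℝ), div_self hHr.ne', mul_one, div_div, le_div_iff₀ (by positivity)]
    rw [div_le_iff₀ hc1] at h4
    have h7 : 4 * n0 * L ^ k ≤ c1 * H := by nlinarith
    have h8 : (0 : ℝ) ≤ n0 * L ^ k := by positivity
    nlinarith

lemma pick (A S : Set ℕ) (H j0 T n0 : ℕ) (hH : 0 < H)
    (hS : ∀ x ∈ S, x ≤ T → j0 < x → Rich A H n0 x) (F : Finset ℕ) :
    ∀ m j : ℕ, j ∈ m • S → j ≤ T → F.card + m ≤ n0 → ∃ s : Finset ℕ, s.card ≤ m ∧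
      (∀ y ∈ s, y ∈ A ∧ H ≤ y) ∧ Disjoint s F ∧ j * H ≤ ∑ y ∈ s, y + m * j0 * H ∧
      ∑ y ∈ s, y ≤ (j + m) * H := by
  intro m
  induction m with
  | zero =>
    intro j hj _ _
    rw [zero_nsmul] at hj
    have : j = 0 := hj
    exact ⟨∅, by simp, by simp, by simp, by simp [this], by simp⟩
  | succ m ih =>
    intro j hj hT hF
    rw [succ_nsmul] at hj
    obtain ⟨i, hi, x, hx, rfl⟩ := hj
    simp only at hT ⊢
    obtain ⟨s, h1, h2, h3, h4, h5⟩ := ih i hi (by omega) (by omega)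
    by_cases hx0 : j0 < x
    · obtain ⟨E, hE1, hE2⟩ := hS x hx (by omega) hx0
      have hlt : (s ∪ F).card < E.card := by
        have := card_union_le s F
        omega
      obtain ⟨y, hy1, hy2⟩ := exists_mem_notMem_of_card_lt_card hlt
      rw [mem_union, not_or] at hy2
      obtain ⟨hyA, hyx⟩ := hE2 y hy1
      have h6 : x * H ≤ y := by rw [← hyx]; exact Nat.div_mul_le_self y H
      have h7 : y < (x + 1) * H := by
        rw [← hyx, mul_comm]; exact Nat.lt_mul_div_succ y hH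
      refine ⟨insert y s, by rw [card_insert_of_notMem hy2.1]; omega, ?_, ?_, ?_, ?_⟩
      · intro z hz
        rcases mem_insert.mp hz with rfl | hz
        · exact ⟨hyA, by nlinarith⟩
        · exact h2 z hz
      · exact disjoint_insert_left.mpr ⟨hy2.2, h3⟩
      · rw [sum_insert hy2.1]; nlinarith [Nat.zero_le (j0 * H)]
      · rw [sum_insert hy2.1]; nlinarith
    · refine ⟨s, by omega, h2, h3, ?_, ?_⟩
      · have : x * H ≤ j0 * H := Nat.mul_le_mul_right _ (by omega)
        nlinarith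
      · nlinarith [Nat.zero_le (x * H)]

lemma cn_full {S : Set ℕ} {m : ℕ} : ∀ d, (∀ x, m < x → x ≤ m + d → x ∈ S) →
    cn S (m + d) = cn S m + d := by
  intro d
  induction d with
  | zero => intro _; rfl
  | succ d ih =>
    intro h
    rw [← add_assoc, cn_succ_mem (h _ (by omega) (by omega)),
      ih fun x h1 h2 => h x h1 (by omega)]
    omega

lemma card_le_cn {S : Set ℕ} {t : ℕ} {G : Finset ℕ} (h : ∀ j ∈ G, j ≤ t ∧ j ∈ S) :
    G.card ≤ cn S t + 1 := by
  classical
  unfold cn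
  refine le_trans (card_le_card (t := insert 0 _) fun j hj => ?_) (card_insert_le _ _)
  rcases Nat.eq_zero_or_pos j with h0 | h0
  · rw [h0]; exact mem_insert_self _ _
  · refine mem_insert_of_mem ?_
    simp only [mem_filter, mem_Ioc]
    exact ⟨⟨h0, (h j hj).1⟩, (h j hj).2⟩

theorem step (k : ℕ) : ∃ K K' D X0 : ℕ, 0 < K' ∧ 0 < D ∧ ∀ H n R : ℕ, X0 ≤ H → R ≤ n →
    log n ^ D ≤ H → ∀ F : Finset ℕ, F.card ≤ K → ∃ (s : Finset ℕ) (r : ℕ), s.card ≤ K ∧
      (∀ y ∈ s, IsIt k y ∧ H ≤ y) ∧ Disjoint s F ∧ n = ∑ y ∈ s, y + r ∧ R ≤ r ∧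
      r ≤ R + K' * H := by
  classical
  obtain ⟨c, D, hc, hc1, hD, hd⟩ := dens k
  obtain ⟨K, hK⟩ := schn_basis (b := c / 2) (by positivity) (by linarith)
  obtain ⟨X0, hX0, hd⟩ := hd (2 * K)
  set j0 := ⌈2 / c⌉₊ with hj0
  refine ⟨K, K + 1 + K * j0, D, X0, by omega, hD, fun H n R hH hR hL F hF => ?_⟩
  have hH0 : 0 < H := by omega
  set T := n / H with hT
  set S : Set ℕ := {j | j ≤ j0 ∨ T < j ∨ Rich {y | IsIt k y} H (2 * K) j} with hS
  have hlow : ∀ t : ℕ, t ≤ T → c / 2 * t ≤ cn S t := by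
    intro t ht
    by_cases h : t ≤ j0
    · have := cn_full (S := S) (m := 0) t fun x _ hx => Or.inl (by omega)
      rw [zero_add] at this
      rw [this]
      push_cast
      have : (0 : ℝ) ≤ t := Nat.cast_nonneg t
      have : (0 : ℝ) ≤ cn S 0 := Nat.cast_nonneg _
      nlinarith
    · have ht0 : 0 < t := by omega
      have h1 : t * H ≤ n := (Nat.mul_le_mul_right H ht).trans (Nat.div_mul_le_self n H)
      have h2 : (1 : ℝ) ≤ (t * H : ℕ) := by exact_mod_cast Nat.mul_pos ht0 hH0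
      have h3 := hd H t hH ht0 (le_trans (pow_le_pow_left₀ (log_nonneg h2)
        (log_le_log (by linarith) (by exact_mod_cast h1)) D) hL)
      have h4 : ((range (t + 1)).filter (Rich {y | IsIt k y} H (2 * K))).card ≤ cn S t + 1 := by
        refine card_le_cn fun j hj => ?_
        obtain ⟨hj1, hj2⟩ := mem_filter.mp hj
        rw [mem_range] at hj1
        exact ⟨by omega, Or.inr (Or.inr hj2)⟩
      have h5 : 2 / c ≤ t := (Nat.le_ceil _).trans (by exact_mod_cast (not_le.mp h).le)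
      rw [div_le_iff₀ hc] at h5
      have h6 : (((range (t + 1)).filter (Rich {y | IsIt k y} H (2 * K))).card : ℝ)
          ≤ cn S t + 1 := by exact_mod_cast h4
      nlinarith
  have hall : ∀ t : ℕ, c / 2 * t ≤ cn S t := by
    intro t
    by_cases h : t ≤ T
    · exact hlow t h
    · obtain ⟨d, rfl⟩ := Nat.exists_eq_add_of_le (not_le.mp h).le
      rw [cn_full (S := S) d fun x hx _ => Or.inr (Or.inl hx)]
      have := hlow T le_rfl
      have : (0 : ℝ) ≤ d := Nat.cast_nonneg d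
      push_cast
      nlinarith
  have hq := Nat.lt_mul_div_succ (n - R) hH0
  have hq' := Nat.mul_div_le (n - R) H
  set q := (n - R) / H with hqdef
  by_cases hqK : q < K
  · refine ⟨∅, n, by simp, by simp, by simp, by simp, hR, ?_⟩
    have : H * (q + 1) ≤ H * K := Nat.mul_le_mul_left _ hqK
    have h3 : n - R ≤ (K + 1 + K * j0) * H := by nlinarith [Nat.zero_le (K * j0 * H)]
    omega
  obtain ⟨j, hj⟩ := Nat.exists_eq_add_of_le (not_lt.mp hqK)
  have hjT : j ≤ T := by
    have : q ≤ T := Nat.div_le_div_right (Nat.sub_le n R)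
    omega
  obtain ⟨s, h1, h2, h3, h4, h5⟩ := pick {y | IsIt k y} S H j0 T (2 * K) hH0
    (fun x hx h1 h2 => by
      rcases hx with h | h | h
      · omega
      · omega
      · exact h) F K j (hK S (Or.inl (Nat.zero_le _)) hall j) hjT (by omega)
  have h6 : ∑ y ∈ s, y ≤ n - R := by rw [hj] at hq'; nlinarith
  have h7 : n - R ≤ ∑ y ∈ s, y + (K + 1 + K * j0) * H := by rw [hj] at hq; nlinarith
  exact ⟨s, n - ∑ y ∈ s, y, h1, h2, h3, by omega, by omega, by omega⟩

end Pool.Agent.Lib.MP_778b46_nt
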